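import Pool.Agent.H95.HL.Stm

/-!
# Project HL (helper95): the branches of a curve (helper52)
-/

set_option autoImplicit false

namespace Pool.Agent.H95.HL

open Polynomial Filter Topology
open Pool.Agent.Q270.PX (An RA rt RA_closed puiseux)

namespace Cur

/-- the polynomial as a polynomial in the second variable with coefficients in the first one -/
noncomputable def psi : MvPolynomial (Fin 2) ℤ →+* ℤ[X][X] :=
  MvPolynomial.eval₂Hom ((C : ℤ[X] →+* ℤ[X][X]).comp (C : ℤ →+* ℤ[X])) ![X, C X]

lemma ev (P : MvPolynomial (Fin 2) ℤ) (a b : ℤ) :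
    (((psi P).map (mapRingHom (Int.castRingHom ℝ))).evalEval (b : ℝ) (a : ℝ)) =
      ((MvPolynomial.eval ![a, b] P : ℤ) : ℝ) := by
  have h : (evalEvalRingHom (b : ℝ) (a : ℝ)).comp
      ((mapRingHom (mapRingHom (Int.castRingHom ℝ))).comp psi) =
      (Int.castRingHom ℝ).comp (MvPolynomial.eval ![a, b]) := by
    apply MvPolynomial.ringHom_ext
    · intro r
      simp [psi]
    · intro i
      fin_cases i
      · simp [psi]
      · simp [psi]
  have h2 := RingHom.congr_fun h P
  exact h2

end Cur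

open Cur in
theorem t_CUR : S_CUR := by
  intro P hP
  set PP : ℝ[X][X] := (psi P).map (mapRingHom (Int.castRingHom ℝ)) with hPP
  have hPP0 : PP ≠ 0 := by
    intro h0
    apply hP
    apply MvPolynomial.funext
    intro v
    have h1 := ev P (v 0) (v 1)
    rw [← hPP, h0] at h1
    have h2 : ![v 0, v 1] = v := by
      funext i
      fin_cases i <;> rfl
    rw [h2] at h1
    have h3 : ((MvPolynomial.eval v P : ℤ) : ℝ) = 0 := by
      rw [← h1]
      simp [evalEval]
    rw [map_zero]
    exact_mod_cast h3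
  have hPPK : ∀ i j, (PP.coeff i).coeff j ∈ RA := by
    intro i j
    rw [hPP, coeff_map, coe_mapRingHom, coeff_map]
    exact intCast_mem RA _
  obtain ⟨D, q, hq, S, hS, hSan, hroots⟩ := puiseux RA_closed PP hPP0 hPPK
  refine ⟨D, q, hq, S, hS, hSan, ?_⟩
  have h1 : Tendsto (fun M : ℕ => (2 : ℝ) ^ M) atTop atTop :=
    tendsto_pow_atTop_atTop_of_one_lt (by norm_num)
  obtain ⟨M₀, hM₀⟩ := eventually_atTop.1 (h1.eventually hroots)
  refine ⟨M₀, fun M hM x hx => ?_⟩
  apply (hM₀ M hM x).1
  have h2 := ev P x (2 ^ M)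
  rw [← hPP, hx] at h2
  push_cast at h2
  exact h2

end Pool.Agent.H95.HL
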