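import Pool.Graph.R_pool_sql_team_seeded_3997aac3.Q270.PX.Alg
import Pool.Agent.H95.EB.Fin

/-!
# Project HL (helper95), MP_37e5fa_nt: the hyperbola law without exceptions

For `ε > 0` and `M ≥ M₀` every factorisation `2 ^ M + 1 = d e` with `v₂ (d - 1) M > (1 + ε) log₂ d log₂ e`
is the value at `T = 2 ^ s`, `M = k s + i`, of one of finitely many polynomial identities
`A B = 2 ^ i T ^ k + 1`, and for `M = 2 ^ m` there is none.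
-/

set_option autoImplicit false

namespace Pool.Agent.H95.HL

open Polynomial
open Pool.Agent.Q270.PX (An RA rt)

/-- CUR: the branches of a curve. PROOF. Library theorem `Pool.Agent.Q270.PX.puiseux` (Q270/PX/Inf.lean) with `K = RA`,
`RA_closed` (Q270/PX/Alg.lean), for `PP = (ψ P).map (mapRingHom (Int.castRingHom ℝ))`, `ψ P = eval₂Hom (C.comp C)
![X, C X] P` in `ℤ[X][X]` (the outer variable is the root). `PP ≠ 0`: else `P` vanishes at all integer points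
(`MvPolynomial.funext`). Then `x = 2 ^ M` in the eventual statement. -/
def S_CUR : Prop := ∀ P : MvPolynomial (Fin 2) ℤ, P ≠ 0 → ∃ D q : ℕ, 1 ≤ q ∧ ∃ S : Set (ℝ → ℝ), S.Finite ∧
  (∀ G ∈ S, An RA G) ∧ ∃ M₀ : ℕ, ∀ M : ℕ, M₀ ≤ M → ∀ x : ℤ, MvPolynomial.eval ![x, 2 ^ M] P = 0 →
    ∃ G ∈ S, (x : ℝ) = ((2 : ℝ) ^ M) ^ D * G (rt q ((2 : ℝ) ^ M))

/-- GRM (helper95) -/
def S_GRM : Prop := ∀ (G : ℝ → ℝ) (D q i : ℕ), An RA G → 1 ≤ q → ∃ (A : ℚ[X]) (s₀ : ℕ), ∀ s : ℕ, s₀ ≤ s →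
  ∀ x : ℤ, (x : ℝ) = ((2 : ℝ) ^ (q * s + i)) ^ D * G (rt q ((2 : ℝ) ^ (q * s + i))) →
    (x : ℚ) = A.eval ((2 : ℚ) ^ s)

/-- DIV. PROOF. Divide: `C (2 ^ i) * X ^ k + 1 = A * Q + R`, `deg R < deg A` (`EuclideanDomain` or `%`, `/` of `ℚ[X]`).
Let `N ≥ 1` be a common denominator of `Q` and `R`. For `t = 2 ^ s`: `N R(t) = d (N e - N Q(t))` with
`d e = 2 ^ (k s + i) + 1`, and `N R(t) / A(t) → 0`, so `R (t) = 0` for large `s`, while `R ≠ 0` has finitely many zeros. -/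
def S_DIV : Prop := ∀ (A : ℚ[X]) (k i : ℕ), 1 ≤ A.natDegree → 1 ≤ k → ∃ s₀ : ℕ, ∀ s : ℕ, s₀ ≤ s → ∀ d : ℤ,
  (d : ℚ) = A.eval ((2 : ℚ) ^ s) → d ∣ 2 ^ (k * s + i) + 1 → A ∣ C ((2 : ℚ) ^ i) * X ^ k + 1

/-- FER. PROOF. `N` a common denominator of `A`: `z = N d = ∑ (N a_j) (2 ^ s) ^ j` is `Short {2} (deg A + 1)` with coefficients
`≤ F ^ δ` and `(2 ^ s) ^ j ≤ F ^ C`, `C = deg A` (as `2 ^ s ≤ F`). By `Pool.Agent.H95.EB.main` for `β = 2`, `S = {2}`, `ε = c / 2`: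
`F ∣ z` (impossible: `0 < z < F` for large `m`, as `d ≤ 2 ^ ((1 - c) 2 ^ m)`), or `d ≤ gcd (z, F) ≤ F ^ (c/2)` (impossible). -/
def S_FER : Prop := ∀ (A : ℚ[X]) (c : ℝ), 0 < c → ∃ m₀ : ℕ, ∀ m : ℕ, m₀ ≤ m → ∀ s d : ℕ, s ≤ 2 ^ m →
  (d : ℚ) = A.eval ((2 : ℚ) ^ s) → d ∣ 2 ^ (2 ^ m) + 1 → (2 : ℝ) ^ (c * 2 ^ m) ≤ d →
  (d : ℝ) ≤ (2 : ℝ) ^ ((1 - c) * 2 ^ m) → False

end Pool.Agent.H95.HL
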