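import Mathlib
import Pool.Agent.H95.HL.Stm

/-!
# A polynomial which divides infinitely often

Module DIV of project HL: `A (2 ^ s)` divides `2 ^ (k s + i) + 1` for arbitrarily large `s`, then `A` divides
`2 ^ i X ^ k + 1`. Divide with remainder `R`; a multiple `N R (2 ^ s)` is divisible by `A (2 ^ s)`, and smaller.
-/

set_option autoImplicit false

namespace Pool.Agent.H95.HL

open Polynomial Filter Topology

/-- a common denominator for the values at the integers -/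
lemma common_den (P : ℚ[X]) : ∃ N : ℕ, 0 < N ∧ ∀ t : ℤ, ∃ z : ℤ, (z : ℚ) = N * P.eval (t : ℚ) := by
  induction P using Polynomial.induction_on' with
  | add p q hp hq =>
    obtain ⟨N, hN, h1⟩ := hp
    obtain ⟨M, hM, h2⟩ := hq
    refine ⟨N * M, Nat.mul_pos hN hM, fun t => ?_⟩
    obtain ⟨a, ha⟩ := h1 t
    obtain ⟨b, hb⟩ := h2 t
    refine ⟨M * a + N * b, ?_⟩
    push_cast
    rw [ha, hb, eval_add]
    ring
  | monomial n a =>
    refine ⟨a.den, a.den_pos, fun t => ⟨a.num * t ^ n, ?_⟩⟩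
    rw [eval_monomial, ← mul_assoc]
    push_cast
    rw [mul_comm (a.den : ℚ) a, Rat.mul_den_eq_num]

theorem t_DIV : S_DIV := by
  intro A k i hA hk
  set B : ℚ[X] := C ((2 : ℚ) ^ i) * X ^ k + 1 with hB
  have hA0 : A ≠ 0 := by
    rintro rfl
    simp at hA
  by_cases hR : B % A = 0
  · exact ⟨0, fun s _ d _ _ => (EuclideanDomain.mod_eq_zero).1 hR⟩
  obtain ⟨N, hN, hNQ⟩ := common_den (B / A)
  have hdiv : A * (B / A) + B % A = B := EuclideanDomain.div_add_mod B A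
  have hdeg : (B % A).degree < A.degree := EuclideanDomain.mod_lt B hA0
  have hdeg' : (C (N : ℚ) * (B % A)).degree < A.degree := by
    rw [degree_C_mul (by exact_mod_cast hN.ne')]
    exact hdeg
  have ht : Tendsto (fun s : ℕ => (2 : ℚ) ^ s) atTop atTop :=
    tendsto_pow_atTop_atTop_of_one_lt one_lt_two
  have h1 : ∀ᶠ s : ℕ in atTop, |eval ((2 : ℚ) ^ s) (C (N : ℚ) * (B % A)) / eval ((2 : ℚ) ^ s) A| < 1 := by
    have h2 := (Polynomial.div_tendsto_atTop_zero_of_degree_lt _ _ hdeg').comp ht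
    have h3 := h2.abs
    rw [abs_zero] at h3
    exact h3.eventually (gt_mem_nhds one_pos)
  have h2 : ∀ᶠ s : ℕ in atTop, ¬ (B % A).IsRoot ((2 : ℚ) ^ s) :=
    ht.eventually (Polynomial.eventually_atTop_not_isRoot _ hR)
  have h3 : ∀ᶠ s : ℕ in atTop, ¬ A.IsRoot ((2 : ℚ) ^ s) :=
    ht.eventually (Polynomial.eventually_atTop_not_isRoot _ hA0)
  obtain ⟨s₀, h0⟩ := eventually_atTop.1 (h1.and (h2.and h3))
  refine ⟨s₀, fun s hs d hd hdvd => ?_⟩
  exfalso
  obtain ⟨g1, g2, g3⟩ := h0 s hs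
  obtain ⟨e, he⟩ := hdvd
  obtain ⟨z, hz⟩ := hNQ (2 ^ s)
  push_cast at hz
  have hBt : eval ((2 : ℚ) ^ s) B = d * e := by
    have h4 : ((2 ^ (k * s + i) + 1 : ℤ) : ℚ) = ((d * e : ℤ) : ℚ) := by rw [he]
    push_cast at h4
    rw [← h4, hB]
    simp only [eval_add, eval_mul, eval_C, eval_pow, eval_X, eval_one]
    rw [pow_add, mul_comm k s, pow_mul]
    ring
  have h5 : eval ((2 : ℚ) ^ s) (C (N : ℚ) * (B % A)) = ((d * (N * e - z) : ℤ) : ℚ) := by
    have h6 : eval ((2 : ℚ) ^ s) (B % A) = eval ((2 : ℚ) ^ s) B -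
        eval ((2 : ℚ) ^ s) A * eval ((2 : ℚ) ^ s) (B / A) := by
      have h7 := congrArg (eval ((2 : ℚ) ^ s)) hdiv
      rw [eval_add, eval_mul] at h7
      linarith
    rw [eval_mul, eval_C, h6, hBt, ← hd]
    push_cast
    rw [hz]
    ring
  have hd0 : (d : ℚ) ≠ 0 := by
    rw [hd]
    exact g3
  rw [h5, ← hd] at g1
  rw [Int.cast_mul, mul_div_cancel_left₀ _ hd0, ← Int.cast_abs] at g1
  have g4 : |(N : ℤ) * e - z| < 1 := by exact_mod_cast g1
  have g5 : (N : ℤ) * e - z = 0 := Int.abs_lt_one_iff.1 g4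
  apply g2
  rw [g5, mul_zero, Int.cast_zero, eval_mul, eval_C] at h5
  rcases mul_eq_zero.1 h5 with h6 | h6
  · exact absurd h6 (by exact_mod_cast hN.ne')
  · exact h6

end Pool.Agent.H95.HL
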