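import Pool.Agent.H95.HL.Stm

/-! # Project HL (helper95): module FER (helper59) -/

set_option autoImplicit false

namespace Pool.Agent.H95.HL

open Polynomial Filter Topology Pool.Agent.H95.EB

theorem suTwo (n : ℕ) : IsSUnit {2} ((2 : ℚ) ^ n) := by
  have h1 : ((2 : ℚ) ^ n) = ((2 ^ n : ℕ) : ℚ) := by push_cast; rfl
  refine ⟨by positivity, ?_, ?_⟩
  · rw [h1, Rat.num_natCast, Int.natAbs_natCast]
    intro p hp
    rw [Nat.mem_primeFactors] at hp
    rw [Finset.mem_singleton]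
    exact (Nat.prime_dvd_prime_iff_eq hp.1 Nat.prime_two).1 (hp.1.dvd_of_dvd_pow hp.2.1)
  · rw [h1, Rat.den_natCast]
    simp

theorem shortPoly (P : ℤ[X]) (s : ℕ) (F : ℕ) (δ : ℝ) (z : ℤ) (hF : 1 ≤ F) (hs : 2 ^ s ≤ F)
    (hz : z = P.eval ((2 : ℤ) ^ s)) (hc : ∀ i, |(P.coeff i : ℝ)| ≤ (F : ℝ) ^ δ) :
    Short {2} (P.natDegree + 1) ((F : ℝ) ^ δ) ((F : ℝ) ^ (P.natDegree : ℝ)) z := by
  have hF1 : (1 : ℝ) ≤ F := by exact_mod_cast hF
  have hs1 : ((2 : ℝ) ^ s) ≤ F := by exact_mod_cast hs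
  have hb : ∀ i : Fin (P.natDegree + 1), ((2 : ℝ) ^ (s * (i : ℕ))) ≤ (F : ℝ) ^ (P.natDegree : ℝ) := by
    intro i
    rw [Real.rpow_natCast, pow_mul]
    calc ((2 : ℝ) ^ s) ^ (i : ℕ) ≤ (F : ℝ) ^ (i : ℕ) := pow_le_pow_left₀ (by positivity) hs1 _
      _ ≤ (F : ℝ) ^ P.natDegree := pow_le_pow_right₀ hF1 (by have := i.2; omega)
  refine ⟨fun i => P.coeff i, fun i => (2 : ℚ) ^ (s * (i : ℕ)), fun i => hc i, fun i => ⟨suTwo _, ?_, ?_⟩, ?_⟩
  · have h1 : ((2 : ℚ) ^ (s * (i : ℕ))) = ((2 ^ (s * (i : ℕ)) : ℕ) : ℚ) := by push_cast; rfl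
    simp only
    rw [h1, Rat.num_natCast]
    push_cast
    rw [abs_of_nonneg (by positivity)]
    exact hb i
  · have h1 : ((2 : ℚ) ^ (s * (i : ℕ))) = ((2 ^ (s * (i : ℕ)) : ℕ) : ℚ) := by push_cast; rfl
    simp only
    rw [h1, Rat.den_natCast]
    push_cast
    exact Real.one_le_rpow hF1 (Nat.cast_nonneg _)
  · rw [hz, Polynomial.eval_eq_sum_range, Finset.sum_range]
    push_cast
    apply Finset.sum_congr rfl
    intro i _
    rw [pow_mul]

theorem t_FER : S_FER := by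
  intro A c hc
  obtain ⟨b, hb⟩ := IsLocalization.integerNormalization_map_to_map (nonZeroDivisors ℤ) (A : ℚ[X])
  have hb0 : (b : ℤ) ≠ 0 := nonZeroDivisors.ne_zero b.2
  set P : ℤ[X] := IsLocalization.integerNormalization (nonZeroDivisors ℤ) A with hP
  have hev : ∀ x : ℤ, ((P.eval x : ℤ) : ℚ) = (b.1 : ℚ) * A.eval (x : ℚ) := by
    intro x
    have h := congrArg (Polynomial.eval (x : ℚ)) hb
    have e : ((x : ℤ) : ℚ) = algebraMap ℤ ℚ x := by simp
    rw [e, Polynomial.eval_map_algebraMap, Polynomial.aeval_algebraMap_apply] at h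
    simp only [Polynomial.coe_aeval_eq_eval] at h
    rw [← e] at h
    have h2 : (b.1 • A).eval (x : ℚ) = (b.1 : ℚ) * A.eval (x : ℚ) := by
      rw [Polynomial.eval_smul]
      simp
    rw [h2] at h
    simpa using h
  obtain ⟨δ, hδ, m₀, hm₀⟩ := main 2 (by norm_num) le_rfl (by
    intro p hp _ a ha
    have h2 := hp.two_le
    rcases Nat.lt_or_ge a 2 with h | h
    · interval_cases a
      · rw [zero_pow (by omega)] at ha
        omega
      · rw [one_pow] at ha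
        omega
    · have h3 : 2 ^ 2 ≤ a ^ p := (Nat.pow_le_pow_right (by norm_num) h2).trans (Nat.pow_le_pow_left h p)
      omega) {2} (P.natDegree + 1) (P.natDegree : ℝ) (c / 2) (by positivity)
  -- bound of the coefficients
  obtain ⟨B, hB⟩ : ∃ B : ℝ, ∀ i, |(P.coeff i : ℝ)| ≤ B := by
    refine ⟨∑ i ∈ Finset.range (P.natDegree + 1), |(P.coeff i : ℝ)|, fun i => ?_⟩
    rcases Nat.lt_or_ge i (P.natDegree + 1) with h | h
    · exact Finset.single_le_sum (f := fun i => |(P.coeff i : ℝ)|) (fun j _ => abs_nonneg _) (Finset.mem_range.2 h)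
    · rw [Polynomial.coeff_eq_zero_of_natDegree_lt (by omega)]
      simp only [Int.cast_zero, abs_zero]
      exact Finset.sum_nonneg fun j _ => abs_nonneg _
  have hpow : Tendsto (fun m : ℕ => (2 : ℝ) ^ m) atTop atTop := tendsto_pow_atTop_atTop_of_one_lt (by norm_num)
  have hE : ∀ η : ℝ, 0 < η → Tendsto (fun m : ℕ => (2 : ℝ) ^ (η * 2 ^ m)) atTop atTop := by
    intro η hη
    exact (tendsto_rpow_atTop_of_base_gt_one (2 : ℝ) (by norm_num)).comp (hpow.const_mul_atTop hη)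
  have hev1 := (hE δ hδ).eventually_ge_atTop B
  have hev2 := (hE c hc).eventually_gt_atTop |(b.1 : ℝ)|
  obtain ⟨m₁, hm₁⟩ := eventually_atTop.1 ((hev1.and hev2).and (eventually_ge_atTop 1))
  refine ⟨max m₀ m₁, fun m hm s d hs hd hdF hdl hdu => ?_⟩
  obtain ⟨⟨h1, h2⟩, h3⟩ := hm₁ m (le_of_max_le_right hm)
  have h2m : (2 : ℝ) ≤ (2 : ℝ) ^ m := by
    calc (2 : ℝ) = 2 ^ 1 := by norm_num
      _ ≤ 2 ^ m := pow_le_pow_right₀ (by norm_num) h3
  obtain ⟨F, hF⟩ : ∃ F : ℕ, F = 2 ^ (2 ^ m) + 1 := ⟨_, rfl⟩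
  have hFr : (F : ℝ) = (2 : ℝ) ^ ((2 : ℝ) ^ m) + 1 := by
    rw [hF]
    push_cast
    congr 1
    rw [← Real.rpow_natCast]
    push_cast
    rfl
  have hFge : (2 : ℝ) ^ ((2 : ℝ) ^ m) ≤ F := by rw [hFr]; linarith
  have hFle : (F : ℝ) ≤ (2 : ℝ) ^ ((2 : ℝ) ^ m + 1) := by
    rw [hFr, Real.rpow_add (by norm_num), Real.rpow_one]
    have : (1 : ℝ) ≤ (2 : ℝ) ^ ((2 : ℝ) ^ m) := Real.one_le_rpow (by norm_num) (by positivity)
    linarith
  have hz : ((b.1 * d : ℤ)) = P.eval ((2 : ℤ) ^ s) := by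
    have h4 := hev ((2 : ℤ) ^ s)
    have c2 : (((2 : ℤ) ^ s : ℤ) : ℚ) = (2 : ℚ) ^ s := by push_cast; rfl
    rw [c2, ← hd] at h4
    have : ((b.1 * d : ℤ) : ℚ) = ((P.eval ((2 : ℤ) ^ s) : ℤ) : ℚ) := by
      rw [h4]
      push_cast
      rfl
    exact_mod_cast this
  have hFpos : 1 ≤ F := by rw [hF]; exact Nat.le_add_left _ _
  have hsh := shortPoly P s F δ (b.1 * d) hFpos (by
      rw [hF]
      have := Nat.pow_le_pow_right (n := 2) (by norm_num) hs
      omega) hz (fun i => (hB i).trans (h1.trans (by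
        rw [mul_comm, Real.rpow_mul (by norm_num)]
        exact Real.rpow_le_rpow (by positivity) hFge hδ.le)))
  have hd0 : (0 : ℝ) < d := lt_of_lt_of_le (by positivity) hdl
  have hmain := hm₀ m (le_of_max_le_left hm) (b.1 * d) (by rw [← hF]; exact hsh)
  rw [← hF] at hmain
  rcases hmain with h | h
  · have h5 : |b.1 * (d : ℤ)| < (F : ℤ) := by
      have : |(b.1 : ℝ)| * d < F := by
        calc |(b.1 : ℝ)| * d < (2 : ℝ) ^ (c * 2 ^ m) * d := mul_lt_mul_of_pos_right h2 hd0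
          _ ≤ (2 : ℝ) ^ (c * 2 ^ m) * (2 : ℝ) ^ ((1 - c) * 2 ^ m) := mul_le_mul_of_nonneg_left hdu (by positivity)
          _ = (2 : ℝ) ^ ((2 : ℝ) ^ m) := by
            rw [← Real.rpow_add (by norm_num)]
            congr 1
            ring
          _ ≤ F := hFge
      have h6 : ((|b.1 * (d : ℤ)| : ℤ) : ℝ) < ((F : ℤ) : ℝ) := by
        push_cast
        rw [abs_mul, Nat.abs_cast]
        exact this
      exact_mod_cast h6
    have h6 := Int.eq_zero_of_abs_lt_dvd h h5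
    rcases mul_eq_zero.1 h6 with h7 | h7
    · exact hb0 h7
    · have : (d : ℝ) = 0 := by exact_mod_cast h7
      linarith
  · have h5 : d ∣ Int.gcd (b.1 * d) (F : ℤ) := by
      have : (d : ℤ) ∣ (Int.gcd (b.1 * d) (F : ℤ) : ℤ) := by
        apply Int.dvd_coe_gcd
        · exact Dvd.intro_left _ rfl
        · rw [hF]
          exact_mod_cast hdF
      exact_mod_cast this
    have h6 : d ≤ Int.gcd (b.1 * d) (F : ℤ) := by
      apply Nat.le_of_dvd _ h5
      apply Nat.pos_of_ne_zero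
      intro h7
      rw [Int.gcd_eq_zero_iff] at h7
      have : (F : ℤ) ≠ 0 := by positivity
      exact this h7.2
    have h7 : (d : ℝ) ≤ (F : ℝ) ^ (c / 2) := le_trans (by exact_mod_cast h6) h
    have h8 : (F : ℝ) ^ (c / 2) < (2 : ℝ) ^ (c * 2 ^ m) := by
      calc (F : ℝ) ^ (c / 2) ≤ ((2 : ℝ) ^ ((2 : ℝ) ^ m + 1)) ^ (c / 2) :=
            Real.rpow_le_rpow (by positivity) hFle (by positivity)
        _ = (2 : ℝ) ^ (((2 : ℝ) ^ m + 1) * (c / 2)) := by rw [← Real.rpow_mul (by norm_num)]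
        _ < (2 : ℝ) ^ (c * 2 ^ m) := by
          apply Real.rpow_lt_rpow_of_exponent_lt (by norm_num)
          nlinarith
    linarith

end Pool.Agent.H95.HL
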