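import Pool.Agent.H95.HL.Fin
import Pool.Agent.H95.HL.Cur
import Pool.Agent.H95.HL.Div
import Pool.Agent.H95.HL.Fer

/-!
# Divisors of Fermat numbers are not algebraic functions of the Fermat number
-/

set_option autoImplicit false

namespace Pool.Agent.H95.HL

open Polynomial Filter Topology
open Pool.Agent.Q270.PX (An RA rt)

/-- divisors of Fermat numbers are large -/
theorem dvd_large (N : ℕ) : ∀ᶠ m : ℕ in atTop, ∀ d : ℕ, 1 < d → d ∣ 2 ^ 2 ^ m + 1 → N < d := by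
  filter_upwards [eventually_ge_atTop (N + 2)] with m hm d hd hdvd
  obtain ⟨p, hp, hpd⟩ := Nat.exists_prime_and_dvd (show d ≠ 1 by omega)
  have hp2 : p ≠ 2 := by
    rintro rfl
    have h1 : 2 ∣ 2 ^ 2 ^ m + 1 := hpd.trans hdvd
    have h2 : 2 ∣ 2 ^ 2 ^ m := dvd_pow_self 2 (by positivity)
    have h3 := (Nat.dvd_add_right h2).1 h1
    omega
  obtain ⟨k, hk⟩ := Nat.pow_pow_add_primeFactors_one_lt hp hp2 (hpd.trans hdvd)
  have hk0 : k ≠ 0 := by
    rintro rfl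
    rw [hk] at hp
    exact absurd hp (by norm_num)
  have h4 : 2 ^ (m + 1) ≤ k * 2 ^ (m + 1) := Nat.le_mul_of_pos_left _ (Nat.pos_of_ne_zero hk0)
  have h5 : m + 1 < 2 ^ (m + 1) := Nat.lt_two_pow_self
  have h6 : p ≤ d := Nat.le_of_dvd (by omega) hpd
  omega

/-- the growth of polynomials along the powers of two -/
theorem growth (A : ℚ[X]) (hA : 1 ≤ A.natDegree) : ∀ᶠ s : ℕ in atTop, ∀ d : ℕ, (d : ℚ) = A.eval ((2 : ℚ) ^ s) →
    (2 : ℝ) ^ ((s : ℝ) / 2) ≤ d := by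
  set A' : ℝ[X] := A.map (algebraMap ℚ ℝ) with hA'
  have hdeg : A'.natDegree = A.natDegree := natDegree_map _
  have hA0 : A' ≠ 0 := by
    intro h
    rw [h] at hdeg
    simp at hdeg
    omega
  have hl : A'.leadingCoeff ≠ 0 := leadingCoeff_ne_zero.2 hA0
  have h1 := (Polynomial.isEquivalent_atTop_lead A').isBigO_symm
  obtain ⟨C₁, hC₁, hC⟩ := h1.exists_pos
  rw [Asymptotics.isBigOWith_iff] at hC
  have ht : Tendsto (fun s : ℕ => (2 : ℝ) ^ s) atTop atTop := tendsto_pow_atTop_atTop_of_one_lt (by norm_num)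
  have ht2 : Tendsto (fun s : ℕ => (2 : ℝ) ^ ((s : ℝ) / 2)) atTop atTop := by
    have h2 : Tendsto (fun s : ℕ => (s : ℝ) / 2) atTop atTop :=
      Tendsto.atTop_div_const (by norm_num) tendsto_natCast_atTop_atTop
    exact (tendsto_rpow_atTop_of_base_gt_one (2 : ℝ) (by norm_num)).comp h2
  filter_upwards [ht.eventually hC, ht2.eventually_ge_atTop (C₁ / |A'.leadingCoeff|)] with s hs hs2 d hd
  rw [Real.norm_eq_abs, Real.norm_eq_abs, abs_mul, abs_pow, hdeg] at hs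
  have h3 : A'.eval ((2 : ℝ) ^ s) = d := by
    have h4 : ((2 : ℝ) ^ s) = algebraMap ℚ ℝ ((2 : ℚ) ^ s) := by simp
    rw [hA', h4, Polynomial.eval_map_apply, ← hd]
    simp
  rw [h3, abs_of_nonneg (by positivity : (0 : ℝ) ≤ 2 ^ s), Nat.abs_cast] at hs
  have hx : (1 : ℝ) ≤ 2 ^ s := one_le_pow₀ (by norm_num)
  have h5 : (2 : ℝ) ^ s ≤ ((2 : ℝ) ^ s) ^ A.natDegree := by
    calc (2 : ℝ) ^ s = ((2 : ℝ) ^ s) ^ 1 := (pow_one _).symm
      _ ≤ _ := pow_le_pow_right₀ hx hA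
  have hl' : 0 < |A'.leadingCoeff| := abs_pos.2 hl
  have h6 : |A'.leadingCoeff| * (2 : ℝ) ^ s ≤ C₁ * d := le_trans (mul_le_mul_of_nonneg_left h5 hl'.le) hs
  have h7 : (2 : ℝ) ^ s = (2 : ℝ) ^ ((s : ℝ) / 2) * (2 : ℝ) ^ ((s : ℝ) / 2) := by
    rw [← Real.rpow_add (by norm_num), ← Real.rpow_natCast]
    congr 1
    ring
  set w := (2 : ℝ) ^ ((s : ℝ) / 2) with hw
  have hw0 : 0 < w := Real.rpow_pos_of_pos (by norm_num) _
  rw [h7] at h6
  rw [div_le_iff₀ hl'] at hs2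
  have h8 : C₁ * w ≤ C₁ * d := by
    calc C₁ * w ≤ (w * |A'.leadingCoeff|) * w := mul_le_mul_of_nonneg_right hs2 hw0.le
      _ = |A'.leadingCoeff| * (w * w) := by ring
      _ ≤ C₁ * d := h6
  exact le_of_mul_le_mul_left h8 hC₁

theorem nonconst' (A : ℚ[X]) : ∀ᶠ m : ℕ in atTop, ∀ d s : ℕ, 1 < d → d ∣ 2 ^ 2 ^ m + 1 →
    (d : ℚ) = A.eval ((2 : ℚ) ^ s) → 1 ≤ A.natDegree := by
  filter_upwards [dvd_large ((A.coeff 0).num.natAbs)] with m hm d s hd hdvd hA
  by_contra hc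
  have h3 : A.natDegree = 0 := by omega
  rw [Polynomial.eq_C_of_natDegree_eq_zero h3, eval_C] at hA
  have h4 := hm d hd hdvd
  rw [← hA] at h4
  simp at h4

theorem pow_tendsto : Tendsto (fun m : ℕ => 2 ^ m) atTop (atTop : Filter ℕ) :=
  tendsto_pow_atTop_atTop_of_one_lt (by norm_num)

/-- **Theorem.** -/
theorem alg (P : MvPolynomial (Fin 2) ℤ) (hP : P ≠ 0) : ∃ m₀ : ℕ, ∀ m : ℕ, m₀ ≤ m → ∀ d : ℕ, 1 < d →
    d < 2 ^ 2 ^ m + 1 → d ∣ 2 ^ 2 ^ m + 1 → MvPolynomial.eval ![(d : ℤ), 2 ^ 2 ^ m] P ≠ 0 := by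
  classical
  obtain ⟨D, q, hq, S, hSf, hSa, M₀, hM₀⟩ := t_CUR P hP
  have hgrm : ∀ G ∈ S, ∀ i : ℕ, ∃ (A : ℚ[X]) (s₀ : ℕ), ∀ s : ℕ, s₀ ≤ s →
      ∀ x : ℤ, (x : ℝ) = ((2 : ℝ) ^ (q * s + i)) ^ D * G (rt q ((2 : ℝ) ^ (q * s + i))) →
      (x : ℚ) = A.eval ((2 : ℚ) ^ s) := fun G hG i => t_GRM G D q i (hSa G hG) hq
  choose! A s₀ hA using hgrm
  set J : Set ((ℝ → ℝ) × ℕ) := S ×ˢ Set.Iio q with hJ
  have hJf : J.Finite := hSf.prod (Set.finite_Iio _)
  have hq0 : (0 : ℝ) < q := by exact_mod_cast hq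
  have hgood : ∀ x ∈ J, ∀ᶠ m : ℕ in atTop, 2 ^ m % q = x.2 → ∀ d : ℕ, 1 < d →
      d < 2 ^ 2 ^ m + 1 → d ∣ 2 ^ 2 ^ m + 1 →
      ((d : ℤ) : ℝ) = ((2 : ℝ) ^ 2 ^ m) ^ D * x.1 (rt q ((2 : ℝ) ^ 2 ^ m)) → False := by
    rintro ⟨G, i⟩ ⟨hG, hi⟩
    simp only at hG hi ⊢
    have hAev : ∀ᶠ m : ℕ in atTop, 2 ^ m % q = i → ∀ d : ℕ,
        ((d : ℤ) : ℝ) = ((2 : ℝ) ^ 2 ^ m) ^ D * G (rt q ((2 : ℝ) ^ 2 ^ m)) →
        (d : ℚ) = (A G i).eval ((2 : ℚ) ^ (2 ^ m / q)) := by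
      filter_upwards [pow_tendsto.eventually (div_large q (s₀ G i) hq)] with m hm1 hmod d hd
      have hMs : 2 ^ m = q * (2 ^ m / q) + i := by
        rw [← hmod]
        exact (Nat.div_add_mod _ _).symm
      have h1 := hA G hG i (2 ^ m / q) hm1 (d : ℤ) (by rw [← hMs]; exact hd)
      exact_mod_cast h1
    by_cases hdeg : 1 ≤ (A G i).natDegree
    · obtain ⟨s₁, hs₁⟩ := t_DIV (A G i) q i hdeg hq
      set B : ℚ[X] := FF q i / A G i with hB
      have hA0 : A G i ≠ 0 := by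
        intro h
        rw [h] at hdeg
        simp at hdeg
      -- the cofactor
      have hBev : ∀ᶠ m : ℕ in atTop, 2 ^ m % q = i → ∀ d e : ℕ, 1 < d → d * e = 2 ^ 2 ^ m + 1 →
          ((d : ℤ) : ℝ) = ((2 : ℝ) ^ 2 ^ m) ^ D * G (rt q ((2 : ℝ) ^ 2 ^ m)) →
          (e : ℚ) = B.eval ((2 : ℚ) ^ (2 ^ m / q)) := by
        filter_upwards [hAev, pow_tendsto.eventually (div_large q s₁ hq)] with m hm1 hm2 hmod d e hd hde hdb
        have hMs : 2 ^ m = q * (2 ^ m / q) + i := by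
          rw [← hmod]
          exact (Nat.div_add_mod _ _).symm
        have hdA := hm1 hmod d hdb
        have hdvd : A G i ∣ FF q i := hs₁ (2 ^ m / q) hm2 (d : ℤ) (by exact_mod_cast hdA)
          ⟨(e : ℤ), by rw [← hMs]; exact_mod_cast hde.symm⟩
        have hAB : A G i * B = FF q i := EuclideanDomain.mul_div_cancel' hA0 hdvd
        have h1 := congrArg (fun p => Polynomial.eval ((2 : ℚ) ^ (2 ^ m / q)) p) hAB
        simp only [eval_mul] at h1
        rw [← hdA, FF_eval, ← hMs] at h1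
        have h2 : (d : ℚ) * e = 2 ^ 2 ^ m + 1 := by exact_mod_cast hde
        rw [← h2] at h1
        have hd0 : (d : ℚ) ≠ 0 := by exact_mod_cast (by omega : d ≠ 0)
        exact (mul_left_cancel₀ hd0 h1).symm
      by_cases hdegB : 1 ≤ B.natDegree
      · set c : ℝ := 1 / (8 * q) with hc
        have hc0 : 0 < c := by positivity
        obtain ⟨m₁, hm₁⟩ := t_FER (A G i) c hc0
        have hdl : Tendsto (fun m : ℕ => 2 ^ m / q) atTop atTop := by
          refine tendsto_atTop.2 fun b => ?_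
          exact pow_tendsto.eventually (div_large q b hq)
        filter_upwards [hAev, hBev, hdl.eventually (growth (A G i) hdeg), hdl.eventually (growth B hdegB),
          eventually_ge_atTop m₁, hdl.eventually_ge_atTop 1, pow_tendsto.eventually_ge_atTop (8 * q)] with m a1 a2 a3 a4 a5 a6 a7
          hmod d hd hdlt hdvd hdb
        obtain ⟨e, he⟩ := hdvd
        have he' : d * e = 2 ^ 2 ^ m + 1 := he.symm
        have hMs : 2 ^ m = q * (2 ^ m / q) + i := by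
          rw [← hmod]
          exact (Nat.div_add_mod _ _).symm
        have hdA := a1 hmod d hdb
        have heB := a2 hmod d e hd he' hdb
        have g1 := a3 d hdA
        have g2 := a4 e heB
        set s := 2 ^ m / q with hs
        have hsM : s ≤ 2 ^ m := Nat.div_le_self _ _
        have hs2 : 2 * c * 2 ^ m ≤ (s : ℝ) / 2 := by
          have h1 : ((2 ^ m : ℕ) : ℝ) = q * s + i := by rw [hMs]; push_cast; ring
          have h2 : (i : ℝ) ≤ q * s := by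
            have : i ≤ q * s := le_trans (le_of_lt hi) (Nat.le_mul_of_pos_right q (by omega))
            exact_mod_cast this
          have h3 : ((2 : ℝ) ^ m) ≤ 2 * (q * s) := by
            push_cast at h1
            rw [h1]
            linarith
          rw [hc]
          have h4 : 2 * (1 / (8 * (q : ℝ))) * 2 ^ m = 2 ^ m / (4 * q) := by field_simp; ring
          rw [h4, div_le_div_iff₀ (by positivity) (by norm_num)]
          nlinarith
        have hM0 : (0 : ℝ) < (2 : ℝ) ^ m := by positivity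
        have k1 : (2 : ℝ) ^ (2 * c * 2 ^ m) ≤ d := (Real.rpow_le_rpow_of_exponent_le (by norm_num) hs2).trans g1
        have k2 : (2 : ℝ) ^ (2 * c * 2 ^ m) ≤ e := (Real.rpow_le_rpow_of_exponent_le (by norm_num) hs2).trans g2
        refine hm₁ m a5 s d hsM hdA ⟨e, he⟩ ?_ ?_
        · refine (Real.rpow_le_rpow_of_exponent_le (by norm_num) ?_).trans k1
          nlinarith
        · have k3 : (d : ℝ) * e = (2 : ℝ) ^ 2 ^ m + 1 := by exact_mod_cast he'
          have k4 : (2 : ℝ) ^ 2 ^ m + 1 ≤ 2 * (2 : ℝ) ^ 2 ^ m := by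
            have : (1 : ℝ) ≤ (2 : ℝ) ^ 2 ^ m := one_le_pow₀ (by norm_num)
            linarith
          have k5 : 2 * (2 : ℝ) ^ 2 ^ m = (2 : ℝ) ^ ((1 : ℝ) + 2 ^ m) := by
            rw [Real.rpow_add (by norm_num), Real.rpow_one, ← Real.rpow_natCast 2 (2 ^ m)]
            push_cast
            rfl
          have k6 : (d : ℝ) * (2 : ℝ) ^ (2 * c * 2 ^ m) ≤ (2 : ℝ) ^ ((1 : ℝ) + 2 ^ m) := by
            rw [← k5]
            refine le_trans (mul_le_mul_of_nonneg_left k2 (Nat.cast_nonneg d)) ?_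
            rw [k3]
            exact k4
          have k7 : (d : ℝ) ≤ (2 : ℝ) ^ ((1 : ℝ) + 2 ^ m) / (2 : ℝ) ^ (2 * c * 2 ^ m) := by
            rw [le_div_iff₀ (Real.rpow_pos_of_pos (by norm_num) _)]
            exact k6
          refine k7.trans ?_
          rw [← Real.rpow_sub (by norm_num)]
          refine Real.rpow_le_rpow_of_exponent_le (by norm_num) ?_
          have k8 : 1 ≤ c * (2 : ℝ) ^ m := by
            rw [hc, div_mul_eq_mul_div, one_mul, le_div_iff₀ (by positivity), one_mul]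
            have : ((8 * q : ℕ) : ℝ) ≤ ((2 ^ m : ℕ) : ℝ) := by exact_mod_cast a7
            push_cast at this
            exact this
          linarith
      · filter_upwards [hBev, nonconst' B] with m a2 a3 hmod d hd hdlt hdvd hdb
        obtain ⟨e, he⟩ := hdvd
        have he1 : 1 < e := by
          by_contra hc
          have : e ≤ 1 := by omega
          interval_cases e <;> omega
        exact hdegB (a3 e (2 ^ m / q) he1 ⟨d, by rw [he]; ring⟩ (a2 hmod d e hd he.symm hdb))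
    · filter_upwards [hAev, nonconst' (A G i)] with m a1 a2 hmod d hd hdlt hdvd hdb
      exact hdeg (a2 d (2 ^ m / q) hd hdvd (a1 hmod d hdb))
  obtain ⟨m₁, hm₁⟩ := eventually_atTop.1 ((Filter.eventually_all_finite hJf).2 hgood)
  obtain ⟨m₂, hm₂⟩ := eventually_atTop.1 (pow_tendsto.eventually_ge_atTop M₀)
  refine ⟨max m₁ m₂, fun m hm d hd hdlt hdvd hz => ?_⟩
  obtain ⟨G, hG, hGx⟩ := hM₀ (2 ^ m) (hm₂ m ((le_max_right _ _).trans hm)) (d : ℤ) hz
  exact hm₁ m ((le_max_left _ _).trans hm) (G, 2 ^ m % q) ⟨hG, Nat.mod_lt _ hq⟩ rfl d hd hdlt hdvd hGx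

end Pool.Agent.H95.HL
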