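import Pool.Agent.H95.HL.Alg
import Pool.Agent.H95.EB.Irr

/-!
# Fermat numbers are prime for the integral values of algebraic functions
-/

set_option autoImplicit false

namespace Pool.Agent.H95.HL

open Polynomial Filter Topology
open Pool.Agent.Q270.PX (An RA rt)

theorem irrF (q i s m : ℕ) (hq : 1 ≤ q) (hM : 2 ^ m = q * s + i) (hm : q.factorization 2 ≤ m) :
    Irreducible (FF q i) := by
  have h1 := Pool.Agent.H95.EB.irr2 (b := 2) (a := q) (m := m) le_rfl (by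
    intro p hp hp2 c hc
    have h2 : c ∣ 2 := by
      rw [← hc]
      exact dvd_pow_self c hp.ne_zero
    have h3 : c = 1 ∨ c = 2 := (Nat.dvd_prime Nat.prime_two).1 h2
    rcases h3 with rfl | rfl
    · simp at hc
    · have h4 : 2 ^ p = 2 ^ 1 := by simpa using hc
      have h5 := Nat.pow_right_injective le_rfl h4
      exact hp.one_lt.ne' h5) (by omega) hm (τ := (2 : ℚ) ^ s) (by positivity)
  have h2 : ((2 : ℕ) : ℚ) ^ 2 ^ m / ((2 : ℚ) ^ s) ^ q = 2 ^ i := by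
    rw [hM, ← pow_mul, Nat.cast_ofNat, pow_add, mul_comm s q]
    field_simp
  rw [h2] at h1
  exact h1

/-- small numbers are coprime to large Fermat numbers -/
theorem small_coprime (N : ℕ) (hN : 1 ≤ N) : ∀ᶠ m : ℕ in atTop, ∀ d : ℕ, d ∣ N → d ∣ 2 ^ 2 ^ m + 1 → d = 1 := by
  filter_upwards [dvd_large N] with m hm d hd hdvd
  by_contra hne
  have h0 : d ≠ 0 := by
    rintro rfl
    have := Nat.eq_zero_of_zero_dvd hd
    omega
  have h1 := hm d (by omega) hdvd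
  have h2 := Nat.le_of_dvd (by omega) hd
  omega

/-- **Theorem.** -/
theorem algprime (P : MvPolynomial (Fin 2) ℤ) (hP : P ≠ 0) : ∃ m₀ : ℕ, ∀ m : ℕ, m₀ ≤ m → ∀ x : ℤ,
    MvPolynomial.eval ![x, 2 ^ 2 ^ m] P = 0 → (2 ^ 2 ^ m + 1 : ℤ) ∣ x ∨ Int.gcd x (2 ^ 2 ^ m + 1) = 1 := by
  classical
  obtain ⟨D, q, hq, S, hSf, hSa, M₀, hM₀⟩ := t_CUR P hP
  have hgrm : ∀ G ∈ S, ∀ i : ℕ, ∃ (A : ℚ[X]) (s₀ : ℕ), ∀ s : ℕ, s₀ ≤ s →
      ∀ x : ℤ, (x : ℝ) = ((2 : ℝ) ^ (q * s + i)) ^ D * G (rt q ((2 : ℝ) ^ (q * s + i))) →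
      (x : ℚ) = A.eval ((2 : ℚ) ^ s) := fun G hG i => t_GRM G D q i (hSa G hG) hq
  choose! A s₀ hA using hgrm
  set J : Set ((ℝ → ℝ) × ℕ) := S ×ˢ Set.Iio q with hJ
  have hJf : J.Finite := hSf.prod (Set.finite_Iio _)
  have hgood : ∀ x ∈ J, ∀ᶠ m : ℕ in atTop, 2 ^ m % q = x.2 → ∀ z : ℤ,
      (z : ℝ) = ((2 : ℝ) ^ 2 ^ m) ^ D * x.1 (rt q ((2 : ℝ) ^ 2 ^ m)) →
      (2 ^ 2 ^ m + 1 : ℤ) ∣ z ∨ Int.gcd z (2 ^ 2 ^ m + 1) = 1 := by
    rintro ⟨G, i⟩ ⟨hG, hi⟩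
    simp only at hG hi ⊢
    have hFev : ∀ s m : ℕ, 2 ^ m = q * s + i → (FF q i).eval ((2 : ℚ) ^ s) = ((2 ^ 2 ^ m + 1 : ℤ) : ℚ) := by
      intro s m h
      rw [FF_eval, ← h]
      push_cast
      rfl
    have hAev : ∀ᶠ m : ℕ in atTop, 2 ^ m % q = i → 2 ^ m = q * (2 ^ m / q) + i ∧ ∀ z : ℤ,
        (z : ℝ) = ((2 : ℝ) ^ 2 ^ m) ^ D * G (rt q ((2 : ℝ) ^ 2 ^ m)) →
        (z : ℚ) = (A G i).eval ((2 : ℚ) ^ (2 ^ m / q)) := by
      filter_upwards [pow_tendsto.eventually (div_large q (s₀ G i) hq)] with m hm1 hmod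
      have hMs : 2 ^ m = q * (2 ^ m / q) + i := by
        rw [← hmod]
        exact (Nat.div_add_mod _ _).symm
      exact ⟨hMs, fun z hz => hA G hG i (2 ^ m / q) hm1 z (by rw [← hMs]; exact hz)⟩
    by_cases hdvd : FF q i ∣ A G i
    · obtain ⟨Q, hQ⟩ := hdvd
      obtain ⟨N, hN, hNQ⟩ := denom Q
      filter_upwards [hAev, small_coprime N hN] with m a1 a2 hmod z hz
      left
      obtain ⟨hMs, a1'⟩ := a1 hmod
      have h1 := a1' z hz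
      obtain ⟨a, ha⟩ := hNQ (2 ^ m / q)
      rw [hQ, eval_mul, hFev _ m hMs] at h1
      have h2 : (N : ℤ) * z = (2 ^ 2 ^ m + 1) * a := by
        have : ((N : ℤ) * z : ℚ) = ((2 ^ 2 ^ m + 1 : ℤ) : ℚ) * a := by
          rw [← ha, h1]
          push_cast
          ring
        exact_mod_cast this
      have h3 : IsCoprime (2 ^ 2 ^ m + 1 : ℤ) (N : ℤ) := by
        rw [Int.isCoprime_iff_gcd_eq_one]
        refine a2 _ ?_ ?_
        · have := Int.gcd_dvd_right (2 ^ 2 ^ m + 1 : ℤ) (N : ℤ)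
          exact_mod_cast this
        · have := Int.gcd_dvd_left (2 ^ 2 ^ m + 1 : ℤ) (N : ℤ)
          exact_mod_cast this
      exact h3.dvd_of_dvd_mul_left ⟨a, h2⟩
    · by_cases hirr : Irreducible (FF q i)
      · obtain ⟨U, V, hUV⟩ := (Irreducible.coprime_iff_not_dvd hirr).2 hdvd
        obtain ⟨N₁, hN₁, hU⟩ := denom U
        obtain ⟨N₂, hN₂, hV⟩ := denom V
        filter_upwards [hAev, small_coprime (N₁ * N₂) (Nat.mul_pos hN₁ hN₂)] with m a1 a2 hmod z hz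
        right
        obtain ⟨hMs, a1'⟩ := a1 hmod
        have h1 := a1' z hz
        obtain ⟨u, hu⟩ := hU (2 ^ m / q)
        obtain ⟨v, hv⟩ := hV (2 ^ m / q)
        have h2 := congrArg (fun p => Polynomial.eval ((2 : ℚ) ^ (2 ^ m / q)) p) hUV
        simp only [eval_add, eval_mul, eval_one] at h2
        rw [hFev _ m hMs, ← h1] at h2
        have h3 : (N₂ * u) * (2 ^ 2 ^ m + 1) + (N₁ * v) * z = ((N₁ * N₂ : ℕ) : ℤ) := by
          have : ((N₂ : ℚ) * u) * ((2 ^ 2 ^ m + 1 : ℤ) : ℚ) + ((N₁ : ℚ) * v) * z = ((N₁ * N₂ : ℕ) : ℚ) := by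
            rw [← hu, ← hv]
            push_cast at h2 ⊢
            linear_combination ((N₁ : ℚ) * N₂) * h2
          exact_mod_cast this
        refine a2 _ ?_ ?_
        · have g1 : ((Int.gcd z (2 ^ 2 ^ m + 1) : ℕ) : ℤ) ∣ z := Int.gcd_dvd_left ..
          have g2 : ((Int.gcd z (2 ^ 2 ^ m + 1) : ℕ) : ℤ) ∣ (2 ^ 2 ^ m + 1) := Int.gcd_dvd_right ..
          have g3 : ((Int.gcd z (2 ^ 2 ^ m + 1) : ℕ) : ℤ) ∣ ((N₁ * N₂ : ℕ) : ℤ) := by
            rw [← h3]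
            exact dvd_add (dvd_mul_of_dvd_right g2 _) (dvd_mul_of_dvd_right g1 _)
          exact Int.natCast_dvd_natCast.1 g3
        · have g2 : ((Int.gcd z (2 ^ 2 ^ m + 1) : ℕ) : ℤ) ∣ (2 ^ 2 ^ m + 1) := Int.gcd_dvd_right ..
          exact_mod_cast g2
      · filter_upwards [hAev, eventually_ge_atTop (q.factorization 2)] with m a1 am hmod z hz
        exact absurd (irrF q i (2 ^ m / q) m hq (a1 hmod).1 am) hirr
  obtain ⟨m₁, hm₁⟩ := eventually_atTop.1 ((Filter.eventually_all_finite hJf).2 hgood)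
  obtain ⟨m₂, hm₂⟩ := eventually_atTop.1 (pow_tendsto.eventually_ge_atTop M₀)
  refine ⟨max m₁ m₂, fun m hm x hz => ?_⟩
  obtain ⟨G, hG, hGx⟩ := hM₀ (2 ^ m) (hm₂ m ((le_max_right _ _).trans hm)) x hz
  exact hm₁ m ((le_max_left _ _).trans hm) (G, 2 ^ m % q) ⟨hG, Nat.mod_lt _ hq⟩ rfl x hGx

end Pool.Agent.H95.HL
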