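import Pool.Agent.H95.HL.Grm
import Pool.Agent.H95.Hyp.Law

/-!
# Project HL: assembly
-/

set_option autoImplicit false

namespace Pool.Agent.H95.HL

open Polynomial Filter Topology
open Real (logb)
open Pool.Agent.Q270.PX (An RA rt)

/-- the polynomial `2 ^ i T ^ k + 1` -/
noncomputable def FF (k i : ℕ) : ℚ[X] := C ((2 : ℚ) ^ i) * X ^ k + 1

theorem FF_eval (k i s : ℕ) : (FF k i).eval ((2 : ℚ) ^ s) = 2 ^ (k * s + i) + 1 := by
  unfold FF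
  simp only [eval_add, eval_mul, eval_C, eval_pow, eval_X, eval_one]
  rw [← pow_mul, ← pow_add]
  congr 2
  ring

/-- the size of the factors -/
theorem vio {ε : ℝ} (hε : 0 < ε) {M d e : ℕ} (hde : d * e = 2 ^ M + 1) (hd : 1 < d) (he : 1 < e)
    (h : (1 + ε) * (logb 2 d * logb 2 e) < padicValNat 2 (d - 1) * M) :
    ε / (1 + ε) * M ≤ logb 2 d ∧ logb 2 d ≤ (1 - ε / (1 + ε)) * M ∧
      ε / (1 + ε) * M ≤ logb 2 e ∧ logb 2 e ≤ (1 - ε / (1 + ε)) * M := by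
  have hd1 : (1 : ℝ) < d := by exact_mod_cast hd
  have he1 : (1 : ℝ) < e := by exact_mod_cast he
  have ha : 0 < logb 2 d := Real.logb_pos (by norm_num) hd1
  have hb : 0 < logb 2 e := Real.logb_pos (by norm_num) he1
  have h1 := Pool.Agent.H95.Hyp.Law.val_le hd
  have h2 := Pool.Agent.H95.Hyp.Law.val_le he
  rw [Pool.Agent.H95.Hyp.val_symm hd he hde] at h2
  have hM0 : (0 : ℝ) ≤ M := Nat.cast_nonneg M
  have h3 : (M : ℝ) ≤ logb 2 d + logb 2 e := by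
    rw [← Real.logb_mul (by positivity) (by positivity)]
    have h4 : (d : ℝ) * e = 2 ^ M + 1 := by exact_mod_cast hde
    rw [h4]
    have h5 : (M : ℝ) = logb 2 ((2 : ℝ) ^ M) := by
      rw [Real.logb_pow, Real.logb_self_eq_one (by norm_num), mul_one]
    rw [h5]
    exact Real.logb_le_logb_of_le (by norm_num) (by positivity) (by linarith)
  have h4 : (1 + ε) * logb 2 e ≤ M := by
    by_contra hc
    push Not at hc
    have : logb 2 d * M < (1 + ε) * (logb 2 d * logb 2 e) := by nlinarith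
    nlinarith
  have h5 : (1 + ε) * logb 2 d ≤ M := by
    by_contra hc
    push Not at hc
    have : logb 2 e * M < (1 + ε) * (logb 2 d * logb 2 e) := by nlinarith
    nlinarith
  have e1 : ε / (1 + ε) * M = M - M / (1 + ε) := by field_simp; ring
  have e2 : (1 - ε / (1 + ε)) * M = M / (1 + ε) := by field_simp; ring
  have h6 : logb 2 d ≤ M / (1 + ε) := by rw [le_div_iff₀ (by linarith)]; linarith
  have h7 : logb 2 e ≤ M / (1 + ε) := by rw [le_div_iff₀ (by linarith)]; linarith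
  rw [e1, e2]
  exact ⟨by linarith, h6, by linarith, h7⟩

theorem pow_le_of {c : ℝ} {d : ℕ} (hd : 1 < d) (h : c ≤ logb 2 d) : (2 : ℝ) ^ c ≤ d := by
  have hd0 : (0 : ℝ) < d := by exact_mod_cast (by omega : 0 < d)
  calc (2 : ℝ) ^ c ≤ (2 : ℝ) ^ logb 2 d := Real.rpow_le_rpow_of_exponent_le (by norm_num) h
    _ = d := Real.rpow_logb (by norm_num) (by norm_num) hd0

theorem le_pow_of {c : ℝ} {d : ℕ} (hd : 1 < d) (h : logb 2 d ≤ c) : (d : ℝ) ≤ (2 : ℝ) ^ c := by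
  have hd0 : (0 : ℝ) < d := by exact_mod_cast (by omega : 0 < d)
  calc (d : ℝ) = (2 : ℝ) ^ logb 2 d := (Real.rpow_logb (by norm_num) (by norm_num) hd0).symm
    _ ≤ (2 : ℝ) ^ c := Real.rpow_le_rpow_of_exponent_le (by norm_num) h

/-- polynomials with large values are not constant -/
theorem nonconst (A : ℚ[X]) (c : ℝ) (hc : 0 < c) : ∀ᶠ M : ℕ in atTop, ∀ (x : ℤ) (s : ℕ),
    (2 : ℝ) ^ (c * M) ≤ x → (x : ℚ) = A.eval ((2 : ℚ) ^ s) → 1 ≤ A.natDegree := by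
  have h1 : Tendsto (fun M : ℕ => (2 : ℝ) ^ (c * M)) atTop atTop := by
    have h2 : Tendsto (fun M : ℕ => c * (M : ℝ)) atTop atTop :=
      Tendsto.const_mul_atTop hc tendsto_natCast_atTop_atTop
    exact (tendsto_rpow_atTop_of_base_gt_one (2 : ℝ) (by norm_num)).comp h2
  filter_upwards [h1.eventually_gt_atTop ((A.coeff 0 : ℚ) : ℝ)] with M hM x s hx hxA
  by_contra hc2
  have h3 : A.natDegree = 0 := by omega
  rw [Polynomial.eq_C_of_natDegree_eq_zero h3, eval_C] at hxA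
  have h4 : (x : ℝ) = ((A.coeff 0 : ℚ) : ℝ) := by
    rw [← hxA]
    push_cast
    rfl
  linarith

theorem div_large (q s : ℕ) (hq : 1 ≤ q) : ∀ᶠ M : ℕ in atTop, s ≤ M / q := by
  filter_upwards [eventually_ge_atTop (q * s)] with M hM
  rw [Nat.le_div_iff_mul_le (by omega)]
  linarith [mul_comm q s]

theorem main (hCUR : S_CUR) (hDIV : S_DIV) (ε : ℝ) (hε : 0 < ε) :
    ∃ T : Set (ℕ × ℕ × ℚ[X] × ℚ[X]), T.Finite ∧
      (∀ k i A B, (k, i, A, B) ∈ T →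
        0 < A.natDegree ∧ 0 < B.natDegree ∧ i < k ∧ A * B = C ((2 : ℚ) ^ i) * X ^ k + 1) ∧
      ∀ᶠ M : ℕ in atTop, ∀ d e : ℕ, d * e = 2 ^ M + 1 → 1 < d → 1 < e →
        (1 + ε) * (logb 2 d * logb 2 e) < padicValNat 2 (d - 1) * M →
        ∃ k i A B s, (k, i, A, B) ∈ T ∧ M = k * s + i ∧ (d : ℚ) = A.eval ((2 : ℚ) ^ s) ∧
          (e : ℚ) = B.eval ((2 : ℚ) ^ s) := by
  classical
  set c : ℝ := ε / (1 + ε) with hcd
  have hc : 0 < c := by positivity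
  obtain ⟨C₀, Ps, h0, hlaw⟩ := Pool.Agent.H95.Hyp.Law.law ε hε
  have hcur : ∀ P ∈ Ps, ∃ D q : ℕ, 1 ≤ q ∧ ∃ S : Set (ℝ → ℝ), S.Finite ∧
      (∀ G ∈ S, An RA G) ∧ ∃ M₀ : ℕ, ∀ M : ℕ, M₀ ≤ M → ∀ x : ℤ, MvPolynomial.eval ![x, 2 ^ M] P = 0 →
      ∃ G ∈ S, (x : ℝ) = ((2 : ℝ) ^ M) ^ D * G (rt q ((2 : ℝ) ^ M)) :=
    fun P hP => hCUR P (by rintro rfl; exact h0 hP)
  choose! D q hq S hSf hSa M₁ hM₁ using hcur
  have hgrm : ∀ P ∈ Ps, ∀ G ∈ S P, ∀ i : ℕ, ∃ (A : ℚ[X]) (s₀ : ℕ), ∀ s : ℕ, s₀ ≤ s →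
      ∀ x : ℤ, (x : ℝ) = ((2 : ℝ) ^ (q P * s + i)) ^ D P * G (rt (q P) ((2 : ℝ) ^ (q P * s + i))) →
      (x : ℚ) = A.eval ((2 : ℚ) ^ s) :=
    fun P hP G hG i => t_GRM G (D P) (q P) i (hSa P hP G hG) (hq P hP)
  choose! A s₀ hA using hgrm
  -- the index set
  set J : Set (MvPolynomial (Fin 2) ℤ × (ℝ → ℝ) × ℕ) := {x | x.1 ∈ Ps ∧ x.2.1 ∈ S x.1 ∧ x.2.2 < q x.1} with hJ
  have hJf : J.Finite := by
    have h1 : J ⊆ ⋃ P ∈ (Ps : Set (MvPolynomial (Fin 2) ℤ)),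
        (fun y : (ℝ → ℝ) × ℕ => (P, y)) '' (S P ×ˢ Set.Iio (q P)) := by
      rintro ⟨P, G, i⟩ ⟨h1, h2, h3⟩
      rw [Set.mem_iUnion₂]
      exact ⟨P, h1, (G, i), ⟨h2, h3⟩, rfl⟩
    refine Set.Finite.subset (Set.Finite.biUnion (Finset.finite_toSet Ps) fun P hP => ?_) h1
    exact ((hSf P hP).prod (Set.finite_Iio _)).image _
  set B : MvPolynomial (Fin 2) ℤ → (ℝ → ℝ) → ℕ → ℚ[X] := fun P G i => FF (q P) i / A P G i with hB
  set T : Set (ℕ × ℕ × ℚ[X] × ℚ[X]) := {t | (0 < t.2.2.1.natDegree ∧ 0 < t.2.2.2.natDegree ∧ t.2.1 < t.1 ∧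
    t.2.2.1 * t.2.2.2 = FF t.1 t.2.1) ∧ ∃ x ∈ J, t = (q x.1, x.2.2, A x.1 x.2.1 x.2.2, B x.1 x.2.1 x.2.2) ∨
      t = (q x.1, x.2.2, B x.1 x.2.1 x.2.2, A x.1 x.2.1 x.2.2)} with hT
  have hTf : T.Finite := by
    refine Set.Finite.subset ((hJf.image (fun x => (q x.1, x.2.2, A x.1 x.2.1 x.2.2, B x.1 x.2.1 x.2.2))).union
      (hJf.image (fun x => (q x.1, x.2.2, B x.1 x.2.1 x.2.2, A x.1 x.2.1 x.2.2)))) ?_
    rintro t ⟨-, x, hx, h | h⟩
    · exact Or.inl ⟨x, hx, h.symm⟩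
    · exact Or.inr ⟨x, hx, h.symm⟩
  refine ⟨T, hTf, ?_, ?_⟩
  · rintro k i A' B' ⟨⟨h1, h2, h3, h4⟩, -⟩
    exact ⟨h1, h2, h3, h4⟩
  -- the good event for one index
  have hgood : ∀ x ∈ J, ∀ᶠ M : ℕ in atTop, M % q x.1 = x.2.2 → ∀ u v : ℤ, u * v = 2 ^ M + 1 →
      (2 : ℝ) ^ (c * M) ≤ u → (2 : ℝ) ^ (c * M) ≤ v →
      (u : ℝ) = ((2 : ℝ) ^ M) ^ D x.1 * x.2.1 (rt (q x.1) ((2 : ℝ) ^ M)) →
      (u : ℚ) = (A x.1 x.2.1 x.2.2).eval ((2 : ℚ) ^ (M / q x.1)) ∧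
      (v : ℚ) = (B x.1 x.2.1 x.2.2).eval ((2 : ℚ) ^ (M / q x.1)) ∧
      0 < (A x.1 x.2.1 x.2.2).natDegree ∧ 0 < (B x.1 x.2.1 x.2.2).natDegree ∧
      A x.1 x.2.1 x.2.2 * B x.1 x.2.1 x.2.2 = FF (q x.1) x.2.2 := by
    rintro ⟨P, G, i⟩ ⟨hP, hG, hi⟩
    simp only at hP hG hi ⊢
    have hq1 := hq P hP
    by_cases hdeg : 1 ≤ (A P G i).natDegree
    · obtain ⟨s₁, hs₁⟩ := hDIV (A P G i) (q P) i hdeg hq1
      filter_upwards [div_large (q P) (s₀ P G i) hq1, div_large (q P) s₁ hq1,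
        nonconst (B P G i) c hc] with M hM1 hM2 hM4 hmod u v huv hu hv hub
      have hMs : M = q P * (M / q P) + i := by
        rw [← hmod]
        exact (Nat.div_add_mod M (q P)).symm
      set s := M / q P with hs
      have hxA : (u : ℚ) = (A P G i).eval ((2 : ℚ) ^ s) := hA P hP G hG i s hM1 u (by rw [← hMs]; exact hub)
      have hdvd : A P G i ∣ FF (q P) i := hs₁ s hM2 u hxA ⟨v, by rw [← hMs]; exact huv.symm⟩
      have hA0 : A P G i ≠ 0 := by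
        intro h
        rw [h] at hdeg
        simp at hdeg
      have hAB : A P G i * B P G i = FF (q P) i := EuclideanDomain.mul_div_cancel' hA0 hdvd
      have hu0 : (u : ℚ) ≠ 0 := by
        have h1 : (0 : ℝ) < u := lt_of_lt_of_le (Real.rpow_pos_of_pos (by norm_num) _) hu
        have h2 : 0 < u := by exact_mod_cast h1
        exact_mod_cast h2.ne'
      have hvB : (v : ℚ) = (B P G i).eval ((2 : ℚ) ^ s) := by
        have h1 := congrArg (fun p => Polynomial.eval ((2 : ℚ) ^ s) p) hAB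
        simp only [eval_mul] at h1
        rw [← hxA, FF_eval, ← hMs] at h1
        have h2 : (u : ℚ) * v = 2 ^ M + 1 := by exact_mod_cast huv
        rw [← h2] at h1
        exact (mul_left_cancel₀ hu0 h1).symm
      exact ⟨hxA, hvB, hdeg, hM4 v s hv hvB, hAB⟩
    · filter_upwards [div_large (q P) (s₀ P G i) hq1, nonconst (A P G i) c hc] with M hM1 hM3 hmod u v huv hu hv hub
      exfalso
      have hMs : M = q P * (M / q P) + i := by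
        rw [← hmod]
        exact (Nat.div_add_mod M (q P)).symm
      exact hdeg (hM3 u (M / q P) hu (hA P hP G hG i (M / q P) hM1 u (by rw [← hMs]; exact hub)))
  have hgood' := (Filter.eventually_all_finite hJf).2 hgood
  have hPs : ∀ᶠ M : ℕ in atTop, ∀ P ∈ Ps, M₁ P ≤ M :=
    (Filter.eventually_all_finset Ps).2 fun P _ => eventually_ge_atTop (M₁ P)
  filter_upwards [hgood', hPs, eventually_ge_atTop 1] with M hM hMP hM1 d e hde hd he hvio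
  obtain ⟨hb1, hb2, hb3, hb4⟩ := vio hε hde hd he hvio
  obtain ⟨⟨P, hP, hPz⟩, -⟩ := (hlaw M hM1).2 d e hde hd he hvio
  obtain ⟨G, hG, hGx⟩ := hM₁ P hP M (hMP P hP) _ hPz
  have hJm : (P, G, M % q P) ∈ J := ⟨hP, hG, Nat.mod_lt _ (hq P hP)⟩
  have hgo := hM _ hJm rfl
  simp only at hgo
  have hMs : M = q P * (M / q P) + M % q P := (Nat.div_add_mod M (q P)).symm
  have hdl := pow_le_of hd hb1
  have hel := pow_le_of he hb3
  rcases le_total d e with hle | hle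
  · rw [min_eq_left hle] at hGx
    obtain ⟨g1, g2, g3, g4, g5⟩ := hgo (d : ℤ) (e : ℤ) (by exact_mod_cast hde) (by exact_mod_cast hdl)
      (by exact_mod_cast hel) hGx
    refine ⟨q P, M % q P, A P G (M % q P), B P G (M % q P), M / q P, ⟨⟨g3, g4, Nat.mod_lt _ (hq P hP), g5⟩, _, hJm,
      Or.inl rfl⟩, hMs, ?_, ?_⟩
    · exact_mod_cast g1
    · exact_mod_cast g2
  · rw [min_eq_right hle] at hGx
    obtain ⟨g1, g2, g3, g4, g5⟩ := hgo (e : ℤ) (d : ℤ) (by rw [mul_comm]; exact_mod_cast hde) (by exact_mod_cast hel)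
      (by exact_mod_cast hdl) hGx
    refine ⟨q P, M % q P, B P G (M % q P), A P G (M % q P), M / q P, ⟨⟨g4, g3, Nat.mod_lt _ (hq P hP), ?_⟩, _, hJm,
      Or.inr rfl⟩, hMs, ?_, ?_⟩
    · rw [mul_comm]
      exact g5
    · exact_mod_cast g2
    · exact_mod_cast g1

theorem final (hCUR : S_CUR) (hDIV : S_DIV) (hFER : S_FER) (ε : ℝ) (hε : 0 < ε) :
    ∃ (T : Set (ℕ × ℕ × ℚ[X] × ℚ[X])) (M₀ : ℕ), T.Finite ∧
      (∀ k i A B, (k, i, A, B) ∈ T →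
        0 < A.natDegree ∧ 0 < B.natDegree ∧ i < k ∧ A * B = C ((2 : ℚ) ^ i) * X ^ k + 1) ∧
      (∀ M : ℕ, M₀ ≤ M → ∀ d e : ℕ, d * e = 2 ^ M + 1 → 1 < d → 1 < e →
        (1 + ε) * (logb 2 d * logb 2 e) < padicValNat 2 (d - 1) * M →
        ∃ k i A B s, (k, i, A, B) ∈ T ∧ M = k * s + i ∧ (d : ℚ) = A.eval ((2 : ℚ) ^ s) ∧
          (e : ℚ) = B.eval ((2 : ℚ) ^ s)) ∧
      ∀ m : ℕ, M₀ ≤ m → ∀ d e : ℕ, d * e = 2 ^ 2 ^ m + 1 → 1 < d → 1 < e →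
        padicValNat 2 (d - 1) * 2 ^ m ≤ (1 + ε) * (logb 2 d * logb 2 e) := by
  obtain ⟨T, hTf, hT, hev⟩ := main hCUR hDIV ε hε
  set c : ℝ := ε / (1 + ε) with hcd
  have hc : 0 < c := by positivity
  have hfer : ∀ t ∈ T, ∀ᶠ m : ℕ in atTop, ∀ s d : ℕ, s ≤ 2 ^ m →
      (d : ℚ) = t.2.2.1.eval ((2 : ℚ) ^ s) → d ∣ 2 ^ (2 ^ m) + 1 → (2 : ℝ) ^ (c * 2 ^ m) ≤ d →
      (d : ℝ) ≤ (2 : ℝ) ^ ((1 - c) * 2 ^ m) → False := by
    intro t _
    obtain ⟨m₀, hm₀⟩ := hFER t.2.2.1 c hc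
    filter_upwards [eventually_ge_atTop m₀] with m hm
    exact hm₀ m hm
  obtain ⟨m₁, hm₁⟩ := eventually_atTop.1 ((Filter.eventually_all_finite hTf).2 hfer)
  obtain ⟨M₁, hM₁⟩ := eventually_atTop.1 hev
  refine ⟨T, max m₁ M₁, hTf, hT, fun M hM => hM₁ M ((le_max_right _ _).trans hM), ?_⟩
  intro m hm d e hde hd he
  by_contra hcon
  push Not at hcon
  have hm2 : M₁ ≤ 2 ^ m := ((le_max_right _ _).trans hm).trans (Nat.lt_two_pow_self).le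
  have hcon' : (1 + ε) * (logb 2 d * logb 2 e) < padicValNat 2 (d - 1) * ((2 ^ m : ℕ) : ℝ) := by
    push_cast
    exact hcon
  obtain ⟨k, i, A, B, s, ht, hMs, hdA, heB⟩ := hM₁ (2 ^ m) hm2 d e hde hd he hcon'
  obtain ⟨hb1, hb2, -, -⟩ := vio hε hde hd he hcon'
  have hk : i < k := (hT k i A B ht).2.2.1
  have hs : s ≤ 2 ^ m := by
    rw [hMs]
    have : 1 * s ≤ k * s := Nat.mul_le_mul_right s (by omega)
    omega
  refine hm₁ m ((le_max_left _ _).trans hm) _ ht s d hs hdA ⟨e, hde.symm⟩ ?_ ?_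
  · have := pow_le_of hd hb1
    push_cast at this
    exact this
  · have := le_pow_of hd hb2
    push_cast at this
    exact this

end Pool.Agent.H95.HL
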