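import Mathlib

/-!
# Project HL (helper95): integral coefficients
-/

set_option autoImplicit false

namespace Pool.Agent.H95.HL

open Polynomial

/-- INT. PROOF. Gauss: `C (2 ^ i) * X ^ k + 1` is primitive; `A = a A₁`, `B = b B₁` with primitive integral `A₁`, `B₁`
(`IsPrimitive.Int`, `Polynomial.isPrimitive…`, `primPart` of `integerNormalization`), `A₁ B₁` is primitive and `± (C (2 ^ i) X ^ k + 1)`;
the coefficients at `0` are `± 1`; change the signs. -/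
def S_INT : Prop := ∀ (k i : ℕ) (A B : ℚ[X]), 1 ≤ k → A * B = C ((2 : ℚ) ^ i) * X ^ k + 1 →
  ∃ (A₁ B₁ : ℤ[X]) (c : ℚ), c ≠ 0 ∧ A₁ * B₁ = C ((2 : ℤ) ^ i) * X ^ k + 1 ∧ A₁.coeff 0 = 1 ∧ B₁.coeff 0 = 1 ∧
    A = C c * A₁.map (Int.castRingHom ℚ) ∧ B = C c⁻¹ * B₁.map (Int.castRingHom ℚ)

/-- ONE. PROOF. `c = a / b`: `b d = a A₁ (2 ^ s) ≡ a` modulo `2 ^ s` and `d ≡ 1` modulo `2 ^ n`, so `2 ^ N ∣ a - b`; take
`2 ^ N > |a - b|`. -/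
def S_ONE : Prop := ∀ (A₁ : ℤ[X]) (c : ℚ), A₁.coeff 0 = 1 → c ≠ 1 → ∃ N : ℕ, ∀ s n : ℕ, N ≤ s → N ≤ n → ∀ d : ℤ,
  (d : ℚ) = c * ((A₁.eval ((2 : ℤ) ^ s) : ℤ) : ℚ) → (2 : ℤ) ^ n ∣ d - 1 → False

end Pool.Agent.H95.HL
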