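import Pool.Agent.H95.HL.Fin
import Pool.Agent.H95.HL.Stm2

/-!
# Project HL: assembly with integral coefficients
-/

set_option autoImplicit false

namespace Pool.Agent.H95.HL

open Polynomial Filter Topology
open Real (logb)

/-- the exponent of `2` in `d - 1` is large -/
theorem val_large {ε : ℝ} (hε : 0 < ε) (N : ℕ) : ∀ᶠ M : ℕ in atTop, ∀ d e : ℕ, d * e = 2 ^ M + 1 → 1 < d → 1 < e →
    (1 + ε) * (logb 2 d * logb 2 e) < padicValNat 2 (d - 1) * M → N ≤ padicValNat 2 (d - 1) := by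
  set c : ℝ := ε / (1 + ε) with hcd
  have hc : 0 < c := by positivity
  have h1 : Tendsto (fun M : ℕ => (1 + ε) * c ^ 2 * (M : ℝ)) atTop atTop :=
    Tendsto.const_mul_atTop (by positivity) tendsto_natCast_atTop_atTop
  filter_upwards [h1.eventually_ge_atTop (N : ℝ), eventually_ge_atTop 1] with M hM hM1 d e hde hd he hv
  obtain ⟨hb1, -, hb3, -⟩ := vio hε hde hd he hv
  have hM0 : (0 : ℝ) < M := by exact_mod_cast hM1
  have h2 : (1 + ε) * ((c * M) * (c * M)) ≤ (1 + ε) * (logb 2 d * logb 2 e) := by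
    refine mul_le_mul_of_nonneg_left ?_ (by linarith)
    exact mul_le_mul hb1 hb3 (by positivity) (le_trans (by positivity) hb1)
  have h3 : ((1 + ε) * c ^ 2 * M) * M < padicValNat 2 (d - 1) * M := by
    calc ((1 + ε) * c ^ 2 * M) * M = (1 + ε) * ((c * M) * (c * M)) := by ring
      _ < _ := lt_of_le_of_lt h2 hv
  have h4 := lt_of_mul_lt_mul_right h3 hM0.le
  have h5 : (N : ℝ) < padicValNat 2 (d - 1) := lt_of_le_of_lt hM h4
  exact_mod_cast h5.le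

theorem final2 (hCUR : S_CUR) (hDIV : S_DIV) (hFER : S_FER) (hINT : S_INT) (hONE : S_ONE) (ε : ℝ) (hε : 0 < ε) :
    ∃ K M₀ : ℕ,
      (∀ M : ℕ, M₀ ≤ M → ∀ d e : ℕ, d * e = 2 ^ M + 1 → 1 < d → 1 < e →
        (1 + ε) * (logb 2 d * logb 2 e) < padicValNat 2 (d - 1) * M →
        ∃ (k i s : ℕ) (A B : ℤ[X]), k ≤ K ∧ i < k ∧ M = k * s + i ∧ 0 < A.natDegree ∧ 0 < B.natDegree ∧
          A * B = C ((2 : ℤ) ^ i) * X ^ k + 1 ∧ (d : ℤ) = A.eval (2 ^ s) ∧ (e : ℤ) = B.eval (2 ^ s)) ∧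
      ∀ m : ℕ, M₀ ≤ m → ∀ d e : ℕ, d * e = 2 ^ 2 ^ m + 1 → 1 < d → 1 < e →
        padicValNat 2 (d - 1) * 2 ^ m ≤ (1 + ε) * (logb 2 d * logb 2 e) := by
  classical
  obtain ⟨T, M₀, hTf, hT, hev, hfe⟩ := final hCUR hDIV hFER ε hε
  obtain ⟨K, hK⟩ : ∃ K : ℕ, ∀ t ∈ T, t.1 ≤ K := by
    obtain ⟨K, hK⟩ := (hTf.image (fun t : ℕ × ℕ × ℚ[X] × ℚ[X] => t.1)).bddAbove
    exact ⟨K, fun t ht => hK ⟨t, ht, rfl⟩⟩
  -- the eventual statement for one identity
  have hone : ∀ t ∈ T, ∀ᶠ M : ℕ in atTop, ∀ s d e : ℕ, M = t.1 * s + t.2.1 → d * e = 2 ^ M + 1 → 1 < d → 1 < e →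
      (1 + ε) * (logb 2 d * logb 2 e) < padicValNat 2 (d - 1) * M →
      (d : ℚ) = t.2.2.1.eval ((2 : ℚ) ^ s) → (e : ℚ) = t.2.2.2.eval ((2 : ℚ) ^ s) →
      ∃ (A B : ℤ[X]), 0 < A.natDegree ∧ 0 < B.natDegree ∧
          A * B = C ((2 : ℤ) ^ t.2.1) * X ^ t.1 + 1 ∧ (d : ℤ) = A.eval (2 ^ s) ∧ (e : ℤ) = B.eval (2 ^ s) := by
    rintro ⟨k, i, A, B⟩ ht
    obtain ⟨hA, hB, hik, hAB⟩ := hT k i A B ht
    obtain ⟨A₁, B₁, c, hc0, hAB₁, hA0, hB0, hAA, hBB⟩ := hINT k i A B (by omega) hAB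
    have hinj : Function.Injective (Int.castRingHom ℚ) := Int.cast_injective
    have hevA : ∀ s : ℕ, A.eval ((2 : ℚ) ^ s) = c * ((A₁.eval ((2 : ℤ) ^ s) : ℤ) : ℚ) := by
      intro s
      have h1 : ((2 : ℚ) ^ s) = (Int.castRingHom ℚ) ((2 : ℤ) ^ s) := by simp
      rw [hAA, eval_mul, eval_C, h1, Polynomial.eval_map_apply]
      rfl
    have hevB : ∀ s : ℕ, B.eval ((2 : ℚ) ^ s) = c⁻¹ * ((B₁.eval ((2 : ℤ) ^ s) : ℤ) : ℚ) := by
      intro s
      have h1 : ((2 : ℚ) ^ s) = (Int.castRingHom ℚ) ((2 : ℤ) ^ s) := by simp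
      rw [hBB, eval_mul, eval_C, h1, Polynomial.eval_map_apply]
      rfl
    have hdA : A₁.natDegree = A.natDegree := by
      rw [hAA, natDegree_C_mul hc0, natDegree_map_eq_of_injective hinj]
    have hdB : B₁.natDegree = B.natDegree := by
      rw [hBB, natDegree_C_mul (inv_ne_zero hc0), natDegree_map_eq_of_injective hinj]
    by_cases hc : c = 1
    · refine Eventually.of_forall fun M s d e hM hde hd he hv h1 h2 => ?_
      have h1' : (d : ℚ) = A.eval ((2 : ℚ) ^ s) := h1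
      have h2' : (e : ℚ) = B.eval ((2 : ℚ) ^ s) := h2
      refine ⟨A₁, B₁, by rw [hdA]; exact hA, by rw [hdB]; exact hB, hAB₁, ?_, ?_⟩
      · rw [hevA, hc, one_mul] at h1'
        exact_mod_cast h1'
      · rw [hevB, hc, inv_one, one_mul] at h2'
        exact_mod_cast h2'
    · obtain ⟨N, hN⟩ := hONE A₁ c hA0 hc
      filter_upwards [val_large hε N, eventually_ge_atTop (k * N + i)] with M hM1 hM2 s d e hM hde hd he hv h1 h2
      exfalso
      have hM' : M = k * s + i := hM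
      have h1' : (d : ℚ) = A.eval ((2 : ℚ) ^ s) := h1
      have hs : N ≤ s := by
        by_contra hcon
        push Not at hcon
        have h3 : k * s < k * N := Nat.mul_lt_mul_of_pos_left hcon (by omega)
        omega
      refine hN s (padicValNat 2 (d - 1)) hs (hM1 d e hde hd he hv) (d : ℤ) ?_ ?_
      · rw [← hevA]
        exact_mod_cast h1'
      · have h3 : 2 ^ padicValNat 2 (d - 1) ∣ d - 1 := pow_padicValNat_dvd
        have h4 : ((d - 1 : ℕ) : ℤ) = (d : ℤ) - 1 := by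
          rw [Nat.cast_sub hd.le]
          rfl
        rw [← h4]
        exact_mod_cast h3
  obtain ⟨M₂, hM₂⟩ := eventually_atTop.1 ((Filter.eventually_all_finite hTf).2 hone)
  refine ⟨K, max M₀ M₂, ?_, fun m hm => hfe m ((le_max_left _ _).trans hm)⟩
  intro M hM d e hde hd he hv
  obtain ⟨k, i, A, B, s, ht, hMs, h1, h2⟩ := hev M ((le_max_left _ _).trans hM) d e hde hd he hv
  obtain ⟨A₁, B₁, g1, g2, g3, g4, g5⟩ := hM₂ M ((le_max_right _ _).trans hM) _ ht s d e hMs hde hd he hv h1 h2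
  exact ⟨k, i, s, A₁, B₁, hK _ ht, (hT k i A B ht).2.2.1, hMs, g1, g2, g3, g4, g5⟩

end Pool.Agent.H95.HL
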