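import Pool.Agent.H95.HL.Stm
import Pool.Graph.R_pool_sql_team_seeded_3997aac3.Q270.PX.Dioph0

/-!
# Project HL: the integral values of a germ (module GRM)
-/

set_option autoImplicit false

namespace Pool.Agent.H95.HL

open Polynomial Filter Topology Asymptotics
open Pool.Agent.Q270.PX (An RA rt)
open Pool.Agent.TH419.WI (Smooth)

/-- the germ along the powers of two -/
theorem expand (G : ℝ → ℝ) (D q i : ℕ) (hG : An RA G) (hq : 1 ≤ q) :
    ∃ (α : Fin (q * D + 1) → ℝ) (C : ℝ), (∀ j, IsAlgebraic ℚ (α j)) ∧ 0 ≤ C ∧ ∃ s₁ : ℕ, ∀ s : ℕ, s₁ ≤ s →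
      |((2 : ℝ) ^ (q * s + i)) ^ D * G (rt q ((2 : ℝ) ^ (q * s + i))) -
        ∑ j : Fin (q * D + 1), (2 : ℝ) ^ (s * (q * D - j)) * α j| ≤ C * ((2 : ℝ) ^ s)⁻¹ := by
  obtain ⟨g, hg, -⟩ := Pool.Agent.Q270.PX.exists_coeff hG.1
  have hgK : ∀ j, g j ∈ RA := Pool.Agent.Q270.PX.coeff_mem hG hg
  have hq0 : (0 : ℝ) < q := by exact_mod_cast hq
  set κ : ℝ := (2 : ℝ) ^ (-((i : ℝ) / q)) with hκ
  have hκ0 : 0 < κ := Real.rpow_pos_of_pos (by norm_num) _
  have hκq : κ ^ q = ((2 : ℝ) ^ i)⁻¹ := by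
    rw [hκ, ← Real.rpow_natCast, ← Real.rpow_mul (by norm_num), ← Real.rpow_natCast, ← Real.rpow_neg (by norm_num)]
    congr 1
    field_simp
  have hκa : IsAlgebraic ℚ κ := by
    refine IsAlgebraic.of_pow (n := q) (by omega) ?_
    rw [hκq]
    have h2 : IsAlgebraic ℚ (((2 : ℚ) ^ i : ℚ) : ℝ) := isAlgebraic_algebraMap (R := ℚ) (A := ℝ) _
    push_cast at h2
    exact h2.inv
  have hrt : ∀ s : ℕ, rt q ((2 : ℝ) ^ (q * s + i)) = κ * ((2 : ℝ) ^ s)⁻¹ := by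
    intro s
    unfold Pool.Agent.Q270.PX.rt
    rw [hκ, ← Real.rpow_natCast, ← Real.rpow_natCast, ← Real.rpow_mul (by norm_num), ← Real.rpow_neg (by norm_num),
      ← Real.rpow_add (by norm_num)]
    congr 1
    push_cast
    field_simp
    ring
  have hlim : Tendsto (fun s : ℕ => κ * ((2 : ℝ) ^ s)⁻¹) atTop (𝓝[>] 0) := by
    rw [tendsto_nhdsWithin_iff]
    constructor
    · have h1 : Tendsto (fun s : ℕ => ((2 : ℝ) ^ s)⁻¹) atTop (𝓝 0) :=
        (tendsto_pow_atTop_atTop_of_one_lt (by norm_num : (1 : ℝ) < 2)).inv_tendsto_atTop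
      simpa using h1.const_mul κ
    · exact Eventually.of_forall fun s => by
        show 0 < κ * ((2 : ℝ) ^ s)⁻¹
        positivity
  have hO := (hg (q * D + 1)).comp_tendsto hlim
  obtain ⟨C, hC0, hC⟩ := hO.exists_nonneg
  rw [isBigOWith_iff] at hC
  obtain ⟨s₁, hs₁⟩ := eventually_atTop.1 hC
  refine ⟨fun j => (2 : ℝ) ^ (i * D) * (g j * κ ^ (j : ℕ)), (2 : ℝ) ^ (i * D) * C * κ ^ (q * D + 1), ?_, by positivity,
    s₁, ?_⟩
  · intro j
    have h2 : IsAlgebraic ℚ (((2 : ℚ) ^ (i * D) : ℚ) : ℝ) := isAlgebraic_algebraMap (R := ℚ) (A := ℝ) _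
    push_cast at h2
    exact h2.mul (((Pool.Agent.Q270.PX.mem_RA _).1 (hgK j)).mul (hκa.pow _))
  · intro s hs
    have h1 := hs₁ s hs
    simp only [Function.comp] at h1
    rw [hrt]
    have h2 : ∑ j : Fin (q * D + 1), (2 : ℝ) ^ (s * (q * D - j)) * ((2 : ℝ) ^ (i * D) * (g j * κ ^ (j : ℕ))) =
        ((2 : ℝ) ^ (q * s + i)) ^ D * ∑ j ∈ Finset.range (q * D + 1), g j * (κ * ((2 : ℝ) ^ s)⁻¹) ^ j := by
      rw [Finset.sum_range, Finset.mul_sum]
      refine Finset.sum_congr rfl fun j _ => ?_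
      have hj : (j : ℕ) ≤ q * D := by have := j.2; omega
      have e1 : ((2 : ℝ) ^ (q * s + i)) ^ D = (2 : ℝ) ^ (i * D) * ((2 : ℝ) ^ s) ^ (q * D - j) * ((2 : ℝ) ^ s) ^ (j : ℕ) := by
        rw [mul_assoc, ← pow_add, Nat.sub_add_cancel hj, ← pow_mul, ← pow_mul, ← pow_add]
        congr 1
        ring
      rw [e1, mul_pow, inv_pow, pow_mul]
      have h3 : ((2 : ℝ) ^ s) ^ (j : ℕ) ≠ 0 := by positivity
      field_simp
    rw [h2, ← mul_sub, abs_mul, abs_of_nonneg (by positivity)]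
    rw [Real.norm_eq_abs, Real.norm_eq_abs, abs_of_nonneg (by positivity : (0 : ℝ) ≤ (κ * ((2 : ℝ) ^ s)⁻¹) ^ (q * D + 1))] at h1
    have e2 : ((2 : ℝ) ^ (q * s + i)) ^ D = (2 : ℝ) ^ (i * D) * ((2 : ℝ) ^ s) ^ (q * D) := by
      rw [← pow_mul, ← pow_mul, ← pow_add]
      congr 1
      ring
    calc ((2 : ℝ) ^ (q * s + i)) ^ D * |G (κ * ((2 : ℝ) ^ s)⁻¹) - ∑ j ∈ Finset.range (q * D + 1), g j * (κ * ((2 : ℝ) ^ s)⁻¹) ^ j|
        ≤ ((2 : ℝ) ^ (q * s + i)) ^ D * (C * (κ * ((2 : ℝ) ^ s)⁻¹) ^ (q * D + 1)) :=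
          mul_le_mul_of_nonneg_left h1 (by positivity)
      _ = (2 : ℝ) ^ (i * D) * C * κ ^ (q * D + 1) * ((2 : ℝ) ^ s)⁻¹ := by
          rw [e2, mul_pow, inv_pow, pow_succ ((2 : ℝ) ^ s)]
          have h3 : ((2 : ℝ) ^ s) ^ (q * D) ≠ 0 := by positivity
          have h4 : (2 : ℝ) ^ s ≠ 0 := by positivity
          field_simp

/-- a `ℚ`-linear projection of `ℝ` onto `ℚ` -/
theorem exists_proj : ∃ π : ℝ →ₗ[ℚ] ℚ, π 1 = 1 := by
  have h1 : LinearMap.ker (Algebra.linearMap ℚ ℝ) = ⊥ := by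
    rw [LinearMap.ker_eq_bot]
    exact (algebraMap ℚ ℝ).injective
  obtain ⟨π, hπ⟩ := LinearMap.exists_leftInverse_of_injective (Algebra.linearMap ℚ ℝ) h1
  refine ⟨π, ?_⟩
  have h2 := LinearMap.congr_fun hπ 1
  simpa using h2

/-- rational sums are values of a rational polynomial -/
theorem rat_sum {n : ℕ} (α : Fin (n + 1) → ℝ) (π : ℝ →ₗ[ℚ] ℚ) (hπ : π 1 = 1) (s : ℕ)
    (h : ¬ Irrational (∑ j : Fin (n + 1), (2 : ℝ) ^ (s * (n - j)) * α j)) :
    ∑ j : Fin (n + 1), (2 : ℝ) ^ (s * (n - j)) * α j =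
      (((∑ j : Fin (n + 1), C (π (α j)) * X ^ (n - j : ℕ) : ℚ[X]).eval ((2 : ℚ) ^ s) : ℚ) : ℝ) := by
  unfold Irrational at h
  push Not at h
  obtain ⟨r, hr⟩ := h
  have h1 : π (r : ℝ) = r := by
    have : ((r : ℚ) : ℝ) = r • (1 : ℝ) := by
      rw [Rat.smul_def, mul_one]
    rw [this, map_smul, hπ, smul_eq_mul, mul_one]
  have h2 : π (∑ j : Fin (n + 1), (2 : ℝ) ^ (s * (n - j)) * α j) =
      ∑ j : Fin (n + 1), (2 : ℚ) ^ (s * (n - j)) * π (α j) := by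
    rw [map_sum]
    refine Finset.sum_congr rfl fun j _ => ?_
    have : (2 : ℝ) ^ (s * (n - j)) * α j = ((2 : ℚ) ^ (s * (n - j)) : ℚ) • α j := by
      rw [Rat.smul_def]
      push_cast
      rfl
    rw [this, map_smul, smul_eq_mul]
  rw [← hr, h1] at h2
  rw [← hr, h2, Polynomial.eval_finsetSum]
  congr 1
  refine Finset.sum_congr rfl fun j _ => ?_
  rw [Polynomial.eval_mul, Polynomial.eval_C, Polynomial.eval_pow, Polynomial.eval_X, ← pow_mul]
  ring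

/-- a common denominator -/
theorem denom (A : ℚ[X]) : ∃ N : ℕ, 1 ≤ N ∧ ∀ t : ℕ, ∃ a : ℤ, (N : ℚ) * A.eval ((2 : ℚ) ^ t) = a := by
  refine ⟨∏ j ∈ A.support, (A.coeff j).den, Nat.one_le_iff_ne_zero.2
    (Finset.prod_ne_zero_iff.2 fun j _ => (A.coeff j).den_nz), fun t => ?_⟩
  have h1 : ∀ j ∈ A.support, ∃ a : ℤ, ((∏ j ∈ A.support, (A.coeff j).den : ℕ) : ℚ) *
      (A.coeff j * ((2 : ℚ) ^ t) ^ j) = a := by
    intro j hj
    obtain ⟨m, hm⟩ := Finset.dvd_prod_of_mem (fun j => (A.coeff j).den) hj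
    refine ⟨m * (A.coeff j).num * (2 ^ t) ^ j, ?_⟩
    rw [hm]
    have h2 := Rat.den_mul_eq_num (A.coeff j)
    push_cast
    rw [← h2]
    ring
  choose! a ha using h1
  refine ⟨∑ j ∈ A.support, a j, ?_⟩
  rw [Polynomial.eval_eq_sum, Polynomial.sum, Finset.mul_sum, Finset.sum_congr rfl ha]
  push_cast
  rfl

theorem t_GRM : S_GRM := by
  intro G D q i hG hq
  have hex := expand G D q i hG hq
  obtain ⟨n, hn⟩ : ∃ n, q * D = n := ⟨_, rfl⟩
  rw [hn] at hex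
  obtain ⟨α, C₀, hα, hC, s₁, hs₁⟩ := hex
  obtain ⟨π, hπ⟩ := exists_proj
  set A : ℚ[X] := ∑ j : Fin (n + 1), C (π (α j)) * X ^ (n - j : ℕ) with hA
  obtain ⟨N, hN, hNA⟩ := denom A
  have hl2 : 0 < Real.log 2 := Real.log_pos (by norm_num)
  obtain ⟨η, hη, L0, hL⟩ := Pool.Agent.Q270.PX.dioph0 α hα {2} (by simp) (n + 1) (n * Real.log 2)
    (Real.log 2 / 2) (by positivity) (by positivity)
  -- large `s`
  have hlarge : ∀ᶠ s : ℕ in atTop, (C₀ + 1) * ((2 : ℝ) ^ s)⁻¹ ≤ Real.exp (-(Real.log 2 / 2 * s)) ∧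
      N * (C₀ * ((2 : ℝ) ^ s)⁻¹) < 1 ∧ L0 ≤ s ∧ s₁ ≤ s := by
    have ht : Tendsto (fun s : ℕ => (2 : ℝ) ^ s) atTop atTop := tendsto_pow_atTop_atTop_of_one_lt (by norm_num)
    have ht2 : Tendsto (fun s : ℕ => Real.exp (Real.log 2 / 2 * s)) atTop atTop := by
      refine Real.tendsto_exp_atTop.comp ?_
      exact Tendsto.const_mul_atTop (by positivity) tendsto_natCast_atTop_atTop
    filter_upwards [ht2.eventually_ge_atTop (C₀ + 1), ht.eventually_gt_atTop (N * C₀),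
      tendsto_natCast_atTop_atTop.eventually_ge_atTop L0, eventually_ge_atTop s₁] with s h1 h2 h3 h4
    refine ⟨?_, ?_, h3, h4⟩
    · have e : (2 : ℝ) ^ s = Real.exp (Real.log 2 / 2 * s) * Real.exp (Real.log 2 / 2 * s) := by
        rw [← Real.exp_add, ← Real.rpow_natCast, Real.rpow_def_of_pos (by norm_num)]
        congr 1
        ring
      rw [Real.exp_neg, e, mul_inv]
      have hp := Real.exp_pos (Real.log 2 / 2 * s)
      have h5 : (C₀ + 1) * (Real.exp (Real.log 2 / 2 * s))⁻¹ ≤ 1 := by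
        rw [← div_eq_mul_inv, div_le_one hp]
        exact h1
      calc (C₀ + 1) * ((Real.exp (Real.log 2 / 2 * s))⁻¹ * (Real.exp (Real.log 2 / 2 * s))⁻¹)
          = ((C₀ + 1) * (Real.exp (Real.log 2 / 2 * s))⁻¹) * (Real.exp (Real.log 2 / 2 * s))⁻¹ := by ring
        _ ≤ 1 * (Real.exp (Real.log 2 / 2 * s))⁻¹ := mul_le_mul_of_nonneg_right h5 (by positivity)
        _ = _ := one_mul _
    · rw [← mul_assoc, ← div_eq_mul_inv, div_lt_one (by positivity)]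
      exact h2
  obtain ⟨s₀, hs₀⟩ := eventually_atTop.1 hlarge
  refine ⟨A, s₀, fun s hs x hx => ?_⟩
  obtain ⟨h1, h2, h3, h4⟩ := hs₀ s hs
  have h5 := hs₁ s h4
  rw [← hx] at h5
  set T : ℝ := ∑ j : Fin (n + 1), (2 : ℝ) ^ (s * (n - j)) * α j with hT
  have hni : ¬ Irrational T := by
    intro hirr
    have h6 := hL s h3 1 (fun j => 2 ^ (s * (n - j))) (fun a b => if a = b then 1 else 0) (fun _ => 1) x
      (by refine ⟨one_ne_zero, ?_⟩; simp) (by
        push_cast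
        exact Real.one_le_exp (by positivity)) (fun j => Nat.one_le_two_pow) (fun j => by
        refine ⟨by positivity, ?_⟩
        intro p hp
        have := Nat.prime_of_mem_primeFactors hp
        have h7 := Nat.dvd_of_mem_primeFactors hp
        have h8 := (Nat.prime_dvd_prime_iff_eq this Nat.prime_two).1 (this.dvd_of_dvd_pow h7)
        simp [h8]) (fun j => by
        push_cast
        rw [← Real.rpow_natCast, Real.rpow_def_of_pos (by norm_num)]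
        refine Real.exp_le_exp.2 ?_
        have h7 : ((s * (n - j) : ℕ) : ℝ) ≤ s * n := by
          have : s * (n - j) ≤ s * n := Nat.mul_le_mul_left _ (Nat.sub_le _ _)
          exact_mod_cast this
        calc Real.log 2 * ((s * (n - j) : ℕ) : ℝ) ≤ Real.log 2 * (s * n) := mul_le_mul_of_nonneg_left h7 hl2.le
          _ = _ := by ring) (fun j => by
        simp only [Int.cast_one, abs_one]
        exact Real.one_le_exp (by positivity)) (fun a b => by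
        split_ifs <;> simp
        · positivity
        · positivity)
    have e1 : ∑ j, ((∑ i : Fin (n + 1), (1 : ℤ) * (((2 ^ (s * (n - i)) : ℕ) : ℤ) * (if i = j then 1 else 0)) : ℤ) : ℝ) * α j = T := by
      rw [hT]
      refine Finset.sum_congr rfl fun j _ => ?_
      simp
    rw [e1] at h6
    have h7 := h6 hirr
    simp only [Nat.cast_one, one_mul] at h7
    rw [abs_sub_comm] at h7
    have h8 := h5.trans (by nlinarith [inv_pos.2 (pow_pos (by norm_num : (0 : ℝ) < 2) s)] : C₀ * ((2 : ℝ) ^ s)⁻¹ ≤ (C₀ + 1) * ((2 : ℝ) ^ s)⁻¹)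
    linarith [h8.trans h1]
  have hTA := rat_sum α π hπ s hni
  rw [← hT, ← hA] at hTA
  rw [hTA] at h5
  obtain ⟨a, ha⟩ := hNA s
  have h9 : |((N * x - a : ℤ) : ℝ)| < 1 := by
    have e2 : ((N * x - a : ℤ) : ℝ) = N * ((x : ℝ) - ((A.eval ((2 : ℚ) ^ s) : ℚ) : ℝ)) := by
      have : (a : ℝ) = N * ((A.eval ((2 : ℚ) ^ s) : ℚ) : ℝ) := by
        have := congrArg (fun r : ℚ => (r : ℝ)) ha
        push_cast at this
        exact this.symm
      push_cast
      rw [this]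
      ring
    rw [e2, abs_mul, Nat.abs_cast]
    exact lt_of_le_of_lt (mul_le_mul_of_nonneg_left h5 (Nat.cast_nonneg N)) h2
  have h10 : (N * x - a : ℤ) = 0 := by
    rw [← Int.cast_abs] at h9
    have : |(N * x - a : ℤ)| < 1 := by exact_mod_cast h9
    exact Int.abs_lt_one_iff.1 this
  have hN0 : (N : ℚ) ≠ 0 := by
    have : N ≠ 0 := by omega
    exact_mod_cast this
  have h11 : (N : ℚ) * x = N * A.eval ((2 : ℚ) ^ s) := by
    rw [ha]
    have : (N * x : ℤ) = a := by linarith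
    exact_mod_cast this
  exact mul_left_cancel₀ hN0 h11

end Pool.Agent.H95.HL
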