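import Pool.Agent.H95.HL.Alg

/-!
# Mersenne numbers are prime for the integral values of algebraic functions
-/

set_option autoImplicit false

namespace Pool.Agent.H95.HL

open Polynomial Filter Topology
open Pool.Agent.Q270.PX (An RA rt)

noncomputable def FM (k i : ℕ) : ℚ[X] := C ((2 : ℚ) ^ i) * X ^ k - 1

theorem FM_eval (k i s : ℕ) : (FM k i).eval ((2 : ℚ) ^ s) = 2 ^ (k * s + i) - 1 := by
  unfold FM
  rw [eval_sub, eval_mul, eval_C, eval_pow, eval_X, eval_one, ← pow_mul, ← pow_add]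
  congr 2
  ring

theorem irrM (q i : ℕ) (hq : 1 ≤ q) (hc : Nat.Coprime q i) : Irreducible (FM q i) := by
  have hPd : (FM q i).natDegree = q := by
    unfold FM
    rw [← C_1, natDegree_sub_C]
    exact natDegree_C_mul_X_pow q _ (by positivity)
  have hP0 : FM q i ≠ 0 := by
    intro h
    rw [h, natDegree_zero] at hPd
    omega
  have hP1 : ¬ IsUnit (FM q i) := by
    intro h
    have := natDegree_eq_zero_of_isUnit h
    omega
  obtain ⟨g, hg, hgP⟩ := WfDvdMonoid.exists_irreducible_factor hP1 hP0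
  have hgf : Fact (Irreducible g) := ⟨hg⟩
  have hroot : algebraMap ℚ (AdjoinRoot g) ((2 : ℚ) ^ i) * (AdjoinRoot.root g) ^ q = 1 := by
    obtain ⟨h, hh⟩ := hgP
    have h1 : eval₂ (AdjoinRoot.of g) (AdjoinRoot.root g) (FM q i) = 0 := by
      rw [hh, eval₂_mul, AdjoinRoot.eval₂_root, zero_mul]
    unfold FM at h1
    simp only [eval₂_sub, eval₂_mul, eval₂_pow, eval₂_X, eval₂_C, eval₂_one] at h1
    rw [map_pow, map_ofNat] at h1 ⊢
    linear_combination h1
  have hfr : Module.finrank ℚ (AdjoinRoot g) = g.natDegree := by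
    rw [(AdjoinRoot.powerBasis hg.ne_zero).finrank, AdjoinRoot.powerBasis_dim]
  have hn := congrArg (Algebra.norm ℚ) hroot
  rw [map_mul, Algebra.norm_algebraMap, map_pow, map_one, hfr] at hn
  obtain ⟨y, hy⟩ : ∃ y : ℚ, y = Algebra.norm ℚ (AdjoinRoot.root g) := ⟨_, rfl⟩
  rw [← hy] at hn
  have hy0 : y ≠ 0 := by
    rintro rfl
    rw [zero_pow (by omega), mul_zero] at hn
    exact zero_ne_one hn
  have hv := congrArg (padicValRat 2) hn
  rw [padicValRat.mul (by positivity) (pow_ne_zero _ hy0)] at hv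
  simp only [padicValRat.pow, padicValRat.one] at hv
  have h2 : padicValRat 2 (2 : ℚ) = 1 := by
    have := padicValRat.self (p := 2) (by norm_num)
    exact_mod_cast this
  rw [h2, mul_one] at hv
  have hdvd : (q : ℤ) ∣ (g.natDegree : ℤ) * i := ⟨- padicValRat 2 y, by linear_combination hv⟩
  have hdvd' : q ∣ g.natDegree * i := by exact_mod_cast hdvd
  have hqn : q ∣ g.natDegree := hc.dvd_of_dvd_mul_right hdvd'
  have hle : q ≤ g.natDegree := Nat.le_of_dvd hg.natDegree_pos hqn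
  obtain ⟨h, hh⟩ := hgP
  have hh0 : h ≠ 0 := by
    rintro rfl
    exact hP0 (by rw [hh, mul_zero])
  have hd : h.natDegree = 0 := by
    have h3 : (FM q i).natDegree = g.natDegree + h.natDegree := by rw [hh, natDegree_mul hg.ne_zero hh0]
    omega
  have hu : IsUnit h := by
    rw [eq_C_of_natDegree_eq_zero hd]
    refine isUnit_C.2 (isUnit_iff_ne_zero.2 ?_)
    intro h0
    apply hh0
    rw [eq_C_of_natDegree_eq_zero hd, h0, C_0]
  rw [hh]
  exact (irreducible_mul_isUnit hu).2 hg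

/-- small numbers are coprime to large Mersenne numbers -/
theorem small_coprimeM (N : ℕ) (hN : 1 ≤ N) : ∀ᶠ p : ℕ in atTop, p.Prime → ∀ d : ℕ, d ∣ N → (d : ℤ) ∣ 2 ^ p - 1 → d = 1 := by
  filter_upwards [eventually_gt_atTop N] with p hpN hp d hd hdvd
  by_contra hne
  obtain ⟨l, hl, hld⟩ := Nat.exists_prime_and_dvd hne
  have hlN : l ≤ N := Nat.le_of_dvd (by omega) (hld.trans hd)
  have : Fact l.Prime := ⟨hl⟩
  have h1 : ((l : ℕ) : ℤ) ∣ 2 ^ p - 1 := dvd_trans (Int.natCast_dvd_natCast.2 hld) hdvd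
  have h2 : ((2 : ZMod l)) ^ p = 1 := by
    have := (ZMod.intCast_zmod_eq_zero_iff_dvd (2 ^ p - 1) l).2 h1
    push_cast at this
    exact sub_eq_zero.1 this
  have h20 : (2 : ZMod l) ≠ 0 := by
    intro h0
    rw [h0, zero_pow hp.ne_zero] at h2
    exact zero_ne_one h2
  have h3 : orderOf (2 : ZMod l) ∣ p := orderOf_dvd_of_pow_eq_one h2
  have h4 : orderOf (2 : ZMod l) ∣ l - 1 := orderOf_dvd_of_pow_eq_one (ZMod.pow_card_sub_one_eq_one h20)
  rcases (Nat.dvd_prime hp).1 h3 with h5 | h5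
  · rw [orderOf_eq_one_iff] at h5
    have h6 : (1 : ZMod l) = 0 := by linear_combination h5
    exact one_ne_zero h6
  · rw [h5] at h4
    have := Nat.le_of_dvd (by have := hl.two_le; omega) h4
    omega

/-- **Theorem.** -/
theorem algprimeM (P : MvPolynomial (Fin 2) ℤ) (hP : P ≠ 0) : ∃ p₀ : ℕ, ∀ p : ℕ, p₀ ≤ p → p.Prime → ∀ x : ℤ,
    MvPolynomial.eval ![x, 2 ^ p] P = 0 → (2 ^ p - 1 : ℤ) ∣ x ∨ Int.gcd x (2 ^ p - 1) = 1 := by
  classical
  obtain ⟨D, q, hq, S, hSf, hSa, M₀, hM₀⟩ := t_CUR P hP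
  have hgrm : ∀ G ∈ S, ∀ i : ℕ, ∃ (A : ℚ[X]) (s₀ : ℕ), ∀ s : ℕ, s₀ ≤ s →
      ∀ x : ℤ, (x : ℝ) = ((2 : ℝ) ^ (q * s + i)) ^ D * G (rt q ((2 : ℝ) ^ (q * s + i))) →
      (x : ℚ) = A.eval ((2 : ℚ) ^ s) := fun G hG i => t_GRM G D q i (hSa G hG) hq
  choose! A s₀ hA using hgrm
  set J : Set ((ℝ → ℝ) × ℕ) := S ×ˢ Set.Iio q with hJ
  have hJf : J.Finite := hSf.prod (Set.finite_Iio _)
  have hgood : ∀ x ∈ J, ∀ᶠ p : ℕ in atTop, p.Prime → p % q = x.2 → ∀ z : ℤ,
      (z : ℝ) = ((2 : ℝ) ^ p) ^ D * x.1 (rt q ((2 : ℝ) ^ p)) →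
      (2 ^ p - 1 : ℤ) ∣ z ∨ Int.gcd z (2 ^ p - 1) = 1 := by
    rintro ⟨G, i⟩ ⟨hG, hi⟩
    simp only at hG hi ⊢
    have hFev : ∀ s p : ℕ, p = q * s + i → (FM q i).eval ((2 : ℚ) ^ s) = ((2 ^ p - 1 : ℤ) : ℚ) := by
      intro s p h
      rw [FM_eval, ← h]
      push_cast
      rfl
    have hAev : ∀ᶠ p : ℕ in atTop, p % q = i → p = q * (p / q) + i ∧ ∀ z : ℤ,
        (z : ℝ) = ((2 : ℝ) ^ p) ^ D * G (rt q ((2 : ℝ) ^ p)) →
        (z : ℚ) = (A G i).eval ((2 : ℚ) ^ (p / q)) := by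
      filter_upwards [div_large q (s₀ G i) hq] with p hm1 hmod
      have hMs : p = q * (p / q) + i := by
        rw [← hmod]
        exact (Nat.div_add_mod _ _).symm
      exact ⟨hMs, fun z hz => hA G hG i (p / q) hm1 z (by rw [← hMs]; exact hz)⟩
    by_cases hdvd : FM q i ∣ A G i
    · obtain ⟨Q, hQ⟩ := hdvd
      obtain ⟨N, hN, hNQ⟩ := denom Q
      filter_upwards [hAev, small_coprimeM N hN] with p a1 a2 hp hmod z hz
      left
      obtain ⟨hMs, a1'⟩ := a1 hmod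
      have h1 := a1' z hz
      obtain ⟨a, ha⟩ := hNQ (p / q)
      rw [hQ, eval_mul, hFev _ p hMs] at h1
      have h2 : (N : ℤ) * z = (2 ^ p - 1) * a := by
        have : ((N : ℤ) * z : ℚ) = ((2 ^ p - 1 : ℤ) : ℚ) * a := by
          rw [← ha, h1]
          push_cast
          ring
        exact_mod_cast this
      have h3 : IsCoprime (2 ^ p - 1 : ℤ) (N : ℤ) := by
        rw [Int.isCoprime_iff_gcd_eq_one]
        refine a2 hp _ ?_ ?_
        · have := Int.gcd_dvd_right (2 ^ p - 1 : ℤ) (N : ℤ)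
          exact_mod_cast this
        · exact Int.gcd_dvd_left (2 ^ p - 1 : ℤ) (N : ℤ)
      exact h3.dvd_of_dvd_mul_left ⟨a, h2⟩
    · by_cases hirr : Irreducible (FM q i)
      · obtain ⟨U, V, hUV⟩ := (Irreducible.coprime_iff_not_dvd hirr).2 hdvd
        obtain ⟨N₁, hN₁, hU⟩ := denom U
        obtain ⟨N₂, hN₂, hV⟩ := denom V
        filter_upwards [hAev, small_coprimeM (N₁ * N₂) (Nat.mul_pos hN₁ hN₂)] with p a1 a2 hp hmod z hz
        right
        obtain ⟨hMs, a1'⟩ := a1 hmod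
        have h1 := a1' z hz
        obtain ⟨u, hu⟩ := hU (p / q)
        obtain ⟨v, hv⟩ := hV (p / q)
        have h2 := congrArg (fun r => Polynomial.eval ((2 : ℚ) ^ (p / q)) r) hUV
        simp only [eval_add, eval_mul, eval_one] at h2
        rw [hFev _ p hMs, ← h1] at h2
        have h3 : (N₂ * u) * (2 ^ p - 1) + (N₁ * v) * z = ((N₁ * N₂ : ℕ) : ℤ) := by
          have : ((N₂ : ℚ) * u) * ((2 ^ p - 1 : ℤ) : ℚ) + ((N₁ : ℚ) * v) * z = ((N₁ * N₂ : ℕ) : ℚ) := by
            rw [← hu, ← hv]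
            push_cast at h2 ⊢
            linear_combination ((N₁ : ℚ) * N₂) * h2
          exact_mod_cast this
        refine a2 hp _ ?_ ?_
        · have g1 : ((Int.gcd z (2 ^ p - 1) : ℕ) : ℤ) ∣ z := Int.gcd_dvd_left ..
          have g2 : ((Int.gcd z (2 ^ p - 1) : ℕ) : ℤ) ∣ (2 ^ p - 1) := Int.gcd_dvd_right ..
          have g3 : ((Int.gcd z (2 ^ p - 1) : ℕ) : ℤ) ∣ ((N₁ * N₂ : ℕ) : ℤ) := by
            rw [← h3]
            exact dvd_add (dvd_mul_of_dvd_right g2 _) (dvd_mul_of_dvd_right g1 _)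
          exact Int.natCast_dvd_natCast.1 g3
        · exact Int.gcd_dvd_right ..
      · filter_upwards [hAev, eventually_gt_atTop q] with p a1 am hp hmod z hz
        refine absurd (irrM q i hq ?_) hirr
        have hMs := (a1 hmod).1
        have h5 : Nat.Coprime q p := by
          rw [Nat.coprime_comm, Nat.Prime.coprime_iff_not_dvd hp]
          intro h
          have := Nat.le_of_dvd (by omega) h
          omega
        rw [hMs] at h5
        exact (Nat.coprime_mul_right_add_right q i (p / q)).1 (by rwa [mul_comm] at h5)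
  obtain ⟨m₁, hm₁⟩ := eventually_atTop.1 ((Filter.eventually_all_finite hJf).2 hgood)
  refine ⟨max m₁ M₀, fun p hm hp x hz => ?_⟩
  obtain ⟨G, hG, hGx⟩ := hM₀ p ((le_max_right _ _).trans hm) x hz
  exact hm₁ p ((le_max_left _ _).trans hm) (G, p % q) ⟨hG, Nat.mod_lt _ hq⟩ hp rfl x hGx

end Pool.Agent.H95.HL
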