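import Pool.Agent.H95.HL.Stm2

/-!
# Project HL (helper95): the constant factor (helper52)
-/

set_option autoImplicit false

namespace Pool.Agent.H95.HL

open Polynomial

theorem t_ONE : S_ONE := by
  intro A₁ c hA hc
  set a : ℤ := c.num with ha
  set b : ℤ := (c.den : ℤ) with hb
  have hb0 : b ≠ 0 := by
    rw [hb]
    exact_mod_cast c.den_ne_zero
  have hab : a - b ≠ 0 := by
    intro h
    apply hc
    have h1 : a = b := by omega
    rw [← Rat.num_div_den c]
    have h2 : (c.num : ℚ) = ((c.den : ℤ) : ℚ) := by exact_mod_cast h1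
    have h3 : ((c.den : ℤ) : ℚ) ≠ 0 := by
      rw [← hb]
      exact_mod_cast hb0
    rw [h2]
    have h4 : ((c.den : ℤ) : ℚ) = (c.den : ℚ) := by push_cast; rfl
    rw [h4] at h3 ⊢
    exact div_self h3
  refine ⟨(a - b).natAbs, fun s n hs hn d hd hdn => hab ?_⟩
  have h1 : (2 : ℤ) ^ (a - b).natAbs ∣ A₁.eval ((2 : ℤ) ^ s) - 1 := by
    have h2 := Polynomial.sub_dvd_eval_sub ((2 : ℤ) ^ s) 0 A₁
    rw [sub_zero, ← Polynomial.coeff_zero_eq_eval_zero, hA] at h2
    exact (pow_dvd_pow _ hs).trans h2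
  have h2 : (2 : ℤ) ^ (a - b).natAbs ∣ d - 1 := (pow_dvd_pow _ hn).trans hdn
  have h3 : b * d = a * A₁.eval ((2 : ℤ) ^ s) := by
    have h4 : (b : ℚ) * (d : ℚ) = (a : ℚ) * ((A₁.eval ((2 : ℤ) ^ s) : ℤ) : ℚ) := by
      rw [hd]
      have h5 : (c.den : ℚ) * c = c.num := by
        rw [mul_comm]
        exact Rat.mul_den_eq_num c
      have h6 : (b : ℚ) = (c.den : ℚ) := by
        rw [hb]
        push_cast
        rfl
      rw [← mul_assoc, h6, h5]
    exact_mod_cast h4
  have h4 : (2 : ℤ) ^ (a - b).natAbs ∣ a - b := by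
    have h5 : a - b = b * (d - 1) - a * (A₁.eval ((2 : ℤ) ^ s) - 1) := by
      linear_combination (-1) * h3
    have h6 := dvd_sub (h2.mul_left b) (h1.mul_left a)
    rwa [← h5] at h6
  refine Int.eq_zero_of_abs_lt_dvd h4 ?_
  have h5 : (a - b).natAbs < 2 ^ (a - b).natAbs := Nat.lt_two_pow_self
  rw [Int.abs_eq_natAbs]
  exact_mod_cast h5

end Pool.Agent.H95.HL
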